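import Mathlib

set_option linter.all false

namespace Pool.Agent.W286.AZ

open Polynomial Finset

noncomputable section

/-- Krawtchouk numbers: the coefficient of `t ^ j` in `(1 - t) ^ a * (1 + t) ^ (m - a)`. -/
def Hp (m a : ℕ) : ℚ[X] := (1 - X) ^ a * (1 + X) ^ (m - a)

def H (m a j : ℕ) : ℚ := (Hp m a).coeff j

lemma Hp_natDegree {m a : ℕ} (h : a ≤ m) : (Hp m a).natDegree ≤ m := by
  unfold Hp
  have h1 : ((1 - X : ℚ[X])).natDegree ≤ 1 := by
    refine (natDegree_sub_le _ _).trans ?_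
    simp
  have h2 : ((1 + X : ℚ[X])).natDegree ≤ 1 := by
    refine (natDegree_add_le _ _).trans ?_
    simp
  refine natDegree_mul_le.trans ?_
  have h3 : ((1 - X : ℚ[X]) ^ a).natDegree ≤ a := by
    refine natDegree_pow_le.trans ?_
    nlinarith
  have h4 : ((1 + X : ℚ[X]) ^ (m - a)).natDegree ≤ m - a := by
    refine natDegree_pow_le.trans ?_
    nlinarith
  omega

lemma H_eq_zero {m a j : ℕ} (h : a ≤ m) (hj : m < j) : H m a j = 0 :=
  coeff_eq_zero_of_natDegree_lt (lt_of_le_of_lt (Hp_natDegree h) hj)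

lemma Hp_up {m a : ℕ} (h : a ≤ m) : Hp (m + 1) (a + 1) = (1 - X) * Hp m a := by
  unfold Hp
  rw [show m + 1 - (a + 1) = m - a by omega]
  ring

lemma Hp_dn {m a : ℕ} (h : a ≤ m) : Hp (m + 1) a = (1 + X) * Hp m a := by
  unfold Hp
  rw [show m + 1 - a = (m - a) + 1 by omega]
  ring

/-- shifted value -/
def sh (f : ℕ → ℚ) (j : ℕ) : ℚ := if j = 0 then 0 else f (j - 1)

@[simp] lemma sh_zero (f : ℕ → ℚ) : sh f 0 = 0 := by simp [sh]
@[simp] lemma sh_succ (f : ℕ → ℚ) (j : ℕ) : sh f (j + 1) = f j := by simp [sh]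

lemma H_up {m a : ℕ} (h : a ≤ m) (j : ℕ) :
    H (m + 1) (a + 1) j = H m a j - sh (H m a) j := by
  unfold H
  rw [Hp_up h, sub_mul, one_mul, coeff_sub]
  cases j with
  | zero => simp
  | succ j => simp [coeff_X_mul]

lemma H_dn {m a : ℕ} (h : a ≤ m) (j : ℕ) :
    H (m + 1) a j = H m a j + sh (H m a) j := by
  unfold H
  rw [Hp_dn h, add_mul, one_mul, coeff_add]
  cases j with
  | zero => simp
  | succ j => simp [coeff_X_mul]

lemma eval_Hp {m a : ℕ} (t : ℚ) : (Hp m a).eval t = (1 - t) ^ a * (1 + t) ^ (m - a) := by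
  simp [Hp]

lemma sum_H_poly {m a : ℕ} (h : a ≤ m) :
    ∑ i ∈ range (m + 1), C (H m a i) * Hp m i = C (2 ^ m) * X ^ a := by
  apply Polynomial.eq_of_infinite_eval_eq
  have hinf : ({-1}ᶜ : Set ℚ).Infinite := Set.Finite.infinite_compl (Set.finite_singleton _)
  refine hinf.mono ?_
  intro t ht
  have ht1 : (1 + t) ≠ 0 := by
    intro h0
    apply ht
    simp only [Set.mem_singleton_iff]
    linarith
  simp only [Set.mem_setOf_eq]
  rw [eval_finset_sum]
  simp only [eval_mul, eval_C, eval_Hp, eval_pow, eval_X]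
  have hs := eval_eq_sum_range' (Nat.lt_succ_of_le (Hp_natDegree h)) ((1 - t) / (1 + t))
  rw [eval_Hp] at hs
  have e1 : 1 - (1 - t) / (1 + t) = 2 * t / (1 + t) := by field_simp; ring
  have e2 : 1 + (1 - t) / (1 + t) = 2 / (1 + t) := by field_simp; ring
  rw [e1, e2] at hs
  have hL : ∑ i ∈ range (m + 1), H m a i * ((1 - t) ^ i * (1 + t) ^ (m - i))
      = (1 + t) ^ m * ∑ i ∈ range (m + 1), (Hp m a).coeff i * ((1 - t) / (1 + t)) ^ i := by
    rw [mul_sum]
    refine sum_congr rfl fun i hi => ?_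
    have hi' : i ≤ m := by simpa [Nat.lt_succ_iff] using hi
    unfold H
    rw [div_pow]
    have : (1 + t) ^ m = (1 + t) ^ i * (1 + t) ^ (m - i) := by
      rw [← pow_add]; congr 1; omega
    rw [this]
    field_simp
  rw [hL, ← Nat.succ_eq_add_one, ← hs]
  have e3 : (1 + t) ^ m = (1 + t) ^ a * (1 + t) ^ (m - a) := by
    rw [← pow_add]; congr 1; omega
  have e4 : (2 : ℚ) ^ m = 2 ^ a * 2 ^ (m - a) := by
    rw [← pow_add]; congr 1; omega
  rw [e3, e4, div_pow, div_pow, mul_pow]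
  field_simp

lemma sum_H_H {m a : ℕ} (h : a ≤ m) (j : ℕ) :
    ∑ i ∈ range (m + 1), H m a i * H m i j = if j = a then 2 ^ m else 0 := by
  have := congrArg (fun p => coeff p j) (sum_H_poly h)
  simp only [finset_sum_coeff, coeff_C_mul, coeff_X_pow] at this
  unfold H at *
  rw [this]
  split_ifs <;> simp

lemma coeff_lin_pow (A B : ℚ) (m j : ℕ) (hj : j ≤ m) :
    ((C A + C B * X : ℚ[X]) ^ m).coeff j = m.choose j * (B ^ j * A ^ (m - j)) := by
  rw [add_comm, add_pow, finset_sum_coeff]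
  rw [Finset.sum_eq_single j]
  · rw [mul_pow, ← C_pow, ← C_pow]
    rw [show C (B ^ j) * X ^ j * C (A ^ (m - j)) * ((m.choose j : ℕ) : ℚ[X])
      = C (B ^ j * A ^ (m - j) * (m.choose j : ℚ)) * X ^ j by
        simp only [C_mul, C_pow, map_natCast]; ring]
    rw [coeff_C_mul, coeff_X_pow_self]
    ring
  · intro i _ hi
    rw [mul_pow, ← C_pow, ← C_pow]
    rw [show C (B ^ i) * X ^ i * C (A ^ (m - i)) * ((m.choose i : ℕ) : ℚ[X])
      = C (B ^ i * A ^ (m - i) * (m.choose i : ℚ)) * X ^ i by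
        simp only [C_mul, C_pow, map_natCast]; ring]
    rw [coeff_C_mul, coeff_X_pow]
    rw [if_neg (by omega)]
    ring
  · intro hn
    simp at hn
    omega

lemma H_symm {m a j : ℕ} (ha : a ≤ m) (hj : j ≤ m) :
    (m.choose a : ℚ) * H m a j = m.choose j * H m j a := by
  have key : ∀ s : ℚ, ∑ i ∈ range (m + 1), (m.choose i : ℚ) * H m i j * s ^ i
      = m.choose j * ((1 - s) ^ j * (1 + s) ^ (m - j)) := by
    intro s
    rw [← coeff_lin_pow (1 + s) (1 - s) m j hj]
    have : (C (1 + s) + C (1 - s) * X : ℚ[X]) = C s * (1 - X) + (1 + X) := by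
      simp only [C_add, C_sub, C_1]; ring
    rw [this, add_pow, finset_sum_coeff]
    refine sum_congr rfl fun i _ => ?_
    rw [mul_pow, ← C_pow]
    rw [show C (s ^ i) * (1 - X) ^ i * (1 + X) ^ (m - i) * ((m.choose i : ℕ) : ℚ[X])
      = C (s ^ i * (m.choose i : ℚ)) * ((1 - X) ^ i * (1 + X) ^ (m - i)) by
        simp only [C_mul, C_pow, map_natCast]; ring]
    rw [coeff_C_mul]
    unfold H Hp
    ring
  have hp : ∑ i ∈ range (m + 1), C ((m.choose i : ℚ) * H m i j) * X ^ i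
      = C (m.choose j : ℚ) * Hp m j := by
    apply Polynomial.funext
    intro s
    rw [eval_finset_sum]
    simp only [eval_mul, eval_C, eval_pow, eval_X, eval_Hp]
    exact key s
  have := congrArg (fun p => coeff p a) hp
  simp only [finset_sum_coeff, coeff_C_mul, coeff_X_pow] at this
  rw [Finset.sum_eq_single a] at this
  · simpa [H] using this
  · intro i _ hi
    rw [if_neg (by omega)]
    ring
  · intro hn
    simp at hn
    omega

lemma coeff_one_sub_pow (c r : ℕ) : ((1 - X : ℚ[X]) ^ c).coeff r = (-1) ^ r * c.choose r := by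
  rcases le_or_gt r c with h | h
  · have := coeff_lin_pow 1 (-1) c r h
    rw [show (C (1 : ℚ) + C (-1) * X : ℚ[X]) = 1 - X by simp; ring] at this
    rw [this]; ring
  · rw [Nat.choose_eq_zero_of_lt h]
    simp only [Nat.cast_zero, mul_zero]
    apply coeff_eq_zero_of_natDegree_lt
    refine lt_of_le_of_lt natDegree_pow_le ?_
    have h1 : ((1 - X : ℚ[X])).natDegree ≤ 1 := by
      refine (natDegree_sub_le _ _).trans ?_
      simp
    nlinarith

lemma sq_even (c r : ℕ) : ((1 - X ^ 2 : ℚ[X]) ^ c).coeff (2 * r) = (-1) ^ r * c.choose r := by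
  have : (1 - X ^ 2 : ℚ[X]) ^ c = expand ℚ 2 ((1 - X) ^ c) := by simp
  rw [this, coeff_expand (by norm_num)]
  simp [coeff_one_sub_pow]

lemma sq_odd (c r : ℕ) : ((1 - X ^ 2 : ℚ[X]) ^ c).coeff (2 * r + 1) = 0 := by
  have : (1 - X ^ 2 : ℚ[X]) ^ c = expand ℚ 2 ((1 - X) ^ c) := by simp
  rw [this, coeff_expand (by norm_num)]
  rw [if_neg (by omega)]

lemma H_c_even (c r : ℕ) : H (2 * c) c (2 * r) = (-1) ^ r * c.choose r := by
  unfold H Hp
  rw [show 2 * c - c = c by omega, ← mul_pow]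
  rw [show (1 - X : ℚ[X]) * (1 + X) = 1 - X ^ 2 by ring]
  exact sq_even c r

lemma H_c_odd (c r : ℕ) : H (2 * c) c (2 * r + 1) = 0 := by
  unfold H Hp
  rw [show 2 * c - c = c by omega, ← mul_pow]
  rw [show (1 - X : ℚ[X]) * (1 + X) = 1 - X ^ 2 by ring]
  exact sq_odd c r

end

end Pool.Agent.W286.AZ
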