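import Pool.Agent.W286.AZ.Vals

set_option linter.all false

namespace Pool.Agent.W286.AZ

open Polynomial Finset

noncomputable section

lemma sh_even_c (c r : ℕ) : sh (H (2 * c) c) (2 * r) = 0 := by
  cases r with
  | zero => simp
  | succ r => rw [show 2 * (r + 1) = (2 * r + 1) + 1 by ring, sh_succ, H_c_odd]

lemma pe (c r : ℕ) : H (2 * c + 1) c (2 * r) = (-1) ^ r * c.choose r := by
  rw [H_dn (by omega), sh_even_c, H_c_even, add_zero]

lemma po (c r : ℕ) : H (2 * c + 1) c (2 * r + 1) = (-1) ^ r * c.choose r := by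
  rw [H_dn (by omega), sh_succ, H_c_even, H_c_odd, zero_add]

lemma qe (c r : ℕ) : H (2 * c + 1) (c + 1) (2 * r) = (-1) ^ r * c.choose r := by
  rw [H_up (by omega), sh_even_c, H_c_even, sub_zero]

lemma qo (c r : ℕ) : H (2 * c + 1) (c + 1) (2 * r + 1) = -((-1) ^ r * c.choose r) := by
  rw [H_up (by omega), sh_succ, H_c_even, H_c_odd, zero_sub]

lemma ch3 (d : ℕ) : ((d : ℚ) + 2) * (2 * (d + 1)).choose d = (d + 1) * (2 * (d + 1)).choose (d + 1) := by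
  have := Nat.choose_succ_right_eq (2 * (d + 1)) d
  rw [show 2 * (d + 1) - d = d + 2 by omega] at this
  have h2 : (((2 * (d + 1)).choose (d + 1) * (d + 1) : ℕ) : ℚ) = (((2 * (d + 1)).choose d * (d + 2) : ℕ) : ℚ) := by
    rw [this]
  push_cast at h2
  linarith

lemma ch4 (c r : ℕ) (h : r ≤ c) : ((2 * c).choose (2 * r + 1) : ℚ) * (2 * r + 1) = (2 * c).choose (2 * r) * (2 * (c - r)) := by
  have := Nat.choose_succ_right_eq (2 * c) (2 * r)
  have h2 : (((2 * c).choose (2 * r + 1) * (2 * r + 1) : ℕ) : ℚ) = (((2 * c).choose (2 * r) * (2 * c - 2 * r) : ℕ) : ℚ) := by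
    rw [this]
  push_cast [Nat.cast_sub (show 2 * r ≤ 2 * c by omega)] at h2
  linarith

lemma sgn_sq (r : ℕ) : ((-1 : ℚ) ^ r) * (-1) ^ r = 1 := by
  rw [← mul_pow]; norm_num

lemma gp_even (d r : ℕ) (h : r ≤ d + 1) :
    ((-1) ^ r * ((d + 1).choose r : ℚ)) * H (2 * (d + 1)) (2 * r) d
      = (((d + 1 : ℕ) : ℚ) - 2 * r) * aa (d + 1) r / (d + 2) := by
  have h0 := H_symm (m := 2 * (d + 1)) (a := 2 * r) (j := d) (by omega) (by omega)
  have h1 := v_even d r h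
  have h2 := ch3 d
  have h3 := aa_id h
  have h4 := sgn_sq r
  have hne : (((2 * (d + 1)).choose (2 * r) : ℕ) : ℚ) ≠ 0 := by
    exact_mod_cast (Nat.choose_pos (show 2 * r ≤ 2 * (d + 1) by omega)).ne'
  have hd : ((d : ℚ) + 2) ≠ 0 := by positivity
  have hd1 : ((d : ℚ) + 1) ≠ 0 := by positivity
  rw [eq_div_iff hd]
  apply mul_left_cancel₀ hne
  apply mul_left_cancel₀ hd1
  set s := (-1 : ℚ) ^ r
  set cc := ((d + 1).choose r : ℚ)
  set G := H (2 * (d + 1)) (2 * r) d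
  set V := H (2 * (d + 1)) d (2 * r)
  set D := ((2 * (d + 1)).choose (2 * r) : ℚ)
  set C0 := ((2 * (d + 1)).choose d : ℚ)
  set C1 := ((2 * (d + 1)).choose (d + 1) : ℚ)
  calc ((d : ℚ) + 1) * (D * (s * cc * G * (d + 2)))
      = (s * cc) * ((d + 2) * (d + 1)) * (D * G) := by ring
    _ = (s * cc) * ((d + 2) * (d + 1)) * (C0 * V) := by rw [h0]
    _ = (s * cc) * ((d + 2) * C0) * ((d + 1) * V) := by ring
    _ = (s * cc) * ((d + 1) * C1) * (s * cc * (d + 1 - 2 * r)) := by rw [h1, h2]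
    _ = (s * s) * (C1 * cc ^ 2) * (d + 1) * (d + 1 - 2 * r) := by ring
    _ = ((d : ℚ) + 1) * (D * ((((d + 1 : ℕ) : ℚ) - 2 * r) * aa (d + 1) r)) := by
        rw [h4, h3]; push_cast; ring

lemma gp_odd (d r : ℕ) (h : 2 * r + 1 ≤ 2 * (d + 1)) :
    ((-1) ^ r * ((d + 1).choose r : ℚ)) * H (2 * (d + 1)) (2 * r + 1) d
      = (2 * (r : ℚ) + 1) * aa (d + 1) r / (d + 2) := by
  have h0 := H_symm (m := 2 * (d + 1)) (a := 2 * r + 1) (j := d) (by omega) (by omega)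
  have h1 := v_odd d r (by omega)
  have h2 := ch3 d
  have h3 := aa_id (c := d + 1) (r := r) (by omega)
  have h4 := sgn_sq r
  have h5 := ch4 (d + 1) r (by omega)
  have hne : (((2 * (d + 1)).choose (2 * r + 1) : ℕ) : ℚ) ≠ 0 := by
    exact_mod_cast (Nat.choose_pos h).ne'
  have hd : ((d : ℚ) + 2) ≠ 0 := by positivity
  have hd1 : ((d : ℚ) + 1) ≠ 0 := by positivity
  rw [eq_div_iff hd]
  apply mul_left_cancel₀ hne
  apply mul_left_cancel₀ hd1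
  push_cast at h5
  set s := (-1 : ℚ) ^ r
  set cc := ((d + 1).choose r : ℚ)
  set G := H (2 * (d + 1)) (2 * r + 1) d
  set V := H (2 * (d + 1)) d (2 * r + 1)
  set D := ((2 * (d + 1)).choose (2 * r) : ℚ)
  set D1 := ((2 * (d + 1)).choose (2 * r + 1) : ℚ)
  set C0 := ((2 * (d + 1)).choose d : ℚ)
  set C1 := ((2 * (d + 1)).choose (d + 1) : ℚ)
  calc ((d : ℚ) + 1) * (D1 * (s * cc * G * (d + 2)))
      = (s * cc) * ((d + 2) * (d + 1)) * (D1 * G) := by ring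
    _ = (s * cc) * ((d + 2) * (d + 1)) * (C0 * V) := by rw [h0]
    _ = (s * cc) * ((d + 2) * C0) * ((d + 1) * V) := by ring
    _ = (s * cc) * ((d + 1) * C1) * (2 * (s * cc) * (d + 1 - r)) := by rw [h1, h2]
    _ = (s * s) * (C1 * cc ^ 2) * (d + 1) * (2 * (d + 1 - r)) := by ring
    _ = (d + 1) * aa (d + 1) r * (D * (2 * (d + 1 - r))) := by
        rw [h4, h3]; ring
    _ = (d + 1) * aa (d + 1) r * (D1 * (2 * r + 1)) := by rw [h5]
    _ = ((d : ℚ) + 1) * (D1 * ((2 * (r : ℚ) + 1) * aa (d + 1) r)) := by ring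

lemma T1 (d : ℕ) : S (2 * (d + 1) + 1) (d + 1 + 1) (d + 1 + 1) (d + 1)
    = ∑ r ∈ range ((d + 1 + 2) / 2), aa (d + 1) r := by
  unfold S
  rw [Nat.add_sub_cancel, sum_split]
  have h1 : ∑ r ∈ range ((d + 1 + 1 + 1) / 2), H (2 * (d + 1) + 1) (d + 1 + 1) (2 * r) * H (2 * (d + 1)) (2 * r) (d + 1)
      = ∑ r ∈ range ((d + 1 + 2) / 2), aa (d + 1) r := by
    refine sum_congr rfl fun r hr => ?_
    rw [Finset.mem_range] at hr
    rw [qe, g_even (by omega)]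
  have h2 : ∑ r ∈ range ((d + 1 + 1) / 2), H (2 * (d + 1) + 1) (d + 1 + 1) (2 * r + 1) * H (2 * (d + 1)) (2 * r + 1) (d + 1) = 0 := by
    apply sum_eq_zero
    intro r hr
    rw [Finset.mem_range] at hr
    rw [g_odd (by omega), mul_zero]
  rw [h1, h2, add_zero]

lemma T2 (d : ℕ) : S (2 * (d + 1) + 1) (d + 1 + 1) (d + 1) (d + 1)
    = ∑ r ∈ range ((d + 1 + 2) / 2), aa (d + 1) r := by
  unfold S
  rw [Nat.add_sub_cancel, sum_split]
  have h1 : ∑ r ∈ range ((d + 1 + 1 + 1) / 2), H (2 * (d + 1) + 1) (d + 1) (2 * r) * H (2 * (d + 1)) (2 * r) (d + 1)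
      = ∑ r ∈ range ((d + 1 + 2) / 2), aa (d + 1) r := by
    refine sum_congr rfl fun r hr => ?_
    rw [Finset.mem_range] at hr
    rw [pe, g_even (by omega)]
  have h2 : ∑ r ∈ range ((d + 1 + 1) / 2), H (2 * (d + 1) + 1) (d + 1) (2 * r + 1) * H (2 * (d + 1)) (2 * r + 1) (d + 1) = 0 := by
    apply sum_eq_zero
    intro r hr
    rw [Finset.mem_range] at hr
    rw [g_odd (by omega), mul_zero]
  rw [h1, h2, add_zero]

lemma T3 (d : ℕ) : S (2 * (d + 1) + 1) (d + 1 + 1) (d + 1 + 1) d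
    = (∑ r ∈ range ((d + 1 + 2) / 2), (((d + 1 : ℕ) : ℚ) - 2 * r) * aa (d + 1) r) / (d + 2)
      - (∑ r ∈ range ((d + 1 + 1) / 2), (2 * (r : ℚ) + 1) * aa (d + 1) r) / (d + 2) := by
  unfold S
  rw [Nat.add_sub_cancel, sum_split]
  have h1 : ∑ r ∈ range ((d + 1 + 1 + 1) / 2), H (2 * (d + 1) + 1) (d + 1 + 1) (2 * r) * H (2 * (d + 1)) (2 * r) d
      = ∑ r ∈ range ((d + 1 + 2) / 2), (((d + 1 : ℕ) : ℚ) - 2 * r) * aa (d + 1) r / (d + 2) := by
    refine sum_congr rfl fun r hr => ?_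
    rw [Finset.mem_range] at hr
    rw [qe, gp_even d r (by omega)]
  have h2 : ∑ r ∈ range ((d + 1 + 1) / 2), H (2 * (d + 1) + 1) (d + 1 + 1) (2 * r + 1) * H (2 * (d + 1)) (2 * r + 1) d
      = - ∑ r ∈ range ((d + 1 + 1) / 2), (2 * (r : ℚ) + 1) * aa (d + 1) r / (d + 2) := by
    rw [← sum_neg_distrib]
    refine sum_congr rfl fun r hr => ?_
    rw [Finset.mem_range] at hr
    rw [qo, neg_mul, gp_odd d r (by omega)]
  rw [h1, h2, sum_div, sum_div]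
  ring

lemma T4 (d : ℕ) : S (2 * (d + 1) + 1) (d + 1 + 1) (d + 1) d
    = (∑ r ∈ range ((d + 1 + 2) / 2), (((d + 1 : ℕ) : ℚ) - 2 * r) * aa (d + 1) r) / (d + 2)
      + (∑ r ∈ range ((d + 1 + 1) / 2), (2 * (r : ℚ) + 1) * aa (d + 1) r) / (d + 2) := by
  unfold S
  rw [Nat.add_sub_cancel, sum_split]
  have h1 : ∑ r ∈ range ((d + 1 + 1 + 1) / 2), H (2 * (d + 1) + 1) (d + 1) (2 * r) * H (2 * (d + 1)) (2 * r) d
      = ∑ r ∈ range ((d + 1 + 2) / 2), (((d + 1 : ℕ) : ℚ) - 2 * r) * aa (d + 1) r / (d + 2) := by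
    refine sum_congr rfl fun r hr => ?_
    rw [Finset.mem_range] at hr
    rw [pe, gp_even d r (by omega)]
  have h2 : ∑ r ∈ range ((d + 1 + 1) / 2), H (2 * (d + 1) + 1) (d + 1) (2 * r + 1) * H (2 * (d + 1)) (2 * r + 1) d
      = ∑ r ∈ range ((d + 1 + 1) / 2), (2 * (r : ℚ) + 1) * aa (d + 1) r / (d + 2) := by
    refine sum_congr rfl fun r hr => ?_
    rw [Finset.mem_range] at hr
    rw [po, gp_odd d r (by omega)]
  rw [h1, h2, sum_div, sum_div]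

lemma Q_odd_odd (m : ℕ) : Q (2 * (2 * m + 1) + 1) (2 * m + 1 + 1) (2 * m)
    = (2 ^ (2 * (2 * m + 1) + 1)) ^ 2 * (((m : ℚ) + 1) / 2 * PP (m + 1)) := by
  unfold Q
  have t1 := T1 (2 * m)
  have t2 := T2 (2 * m)
  have t3 := T3 (2 * m)
  have t4 := T4 (2 * m)
  rw [show (2 * m + 1 + 2) / 2 = m + 1 by omega] at t1 t2 t3 t4
  rw [show (2 * m + 1 + 1) / 2 = m + 1 by omega] at t3 t4
  rw [show 2 * m + 2 = 2 * m + 1 + 1 by ring, t1, t2, t3, t4]
  have t := sum_tel (2 * m + 1) (m + 1) (by omega)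
  have s0 := sum_half_odd m
  have haa : aa (2 * m + 1) (m + 1) = cb (m + 1) * cb m := by
    unfold aa
    rw [show 2 * m + 1 - (m + 1) = m by omega]
  rw [t, s0, haa]
  have h4 : (4 : ℚ) ^ (2 * m + 1) = 4 * 16 ^ m := by
    rw [pow_succ, pow_mul]; norm_num; ring
  have h2 : (2 : ℚ) ^ (2 * (2 * m + 1) + 1) = 8 * 16 ^ m := by
    rw [show 2 * (2 * m + 1) + 1 = 4 * m + 3 by ring, pow_add, pow_mul]; norm_num; ring
  rw [h4, h2]
  have hcb := cb_succ m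
  have hP := PP_eq (m + 1)
  rw [pow_succ] at hP
  have hm : ((m : ℚ) + 1) ≠ 0 := by positivity
  have hm2 : (2 * (m : ℚ) + 2) ≠ 0 := by positivity
  have e1 : (((m + 1 : ℕ) : ℚ)) * (2 * ((2 * m + 1 : ℕ) : ℚ) - 2 * ((m + 1 : ℕ) : ℚ) + 1) * (cb (m + 1) * cb m)
      = (m + 1) * (m + 1) / 2 * (PP (m + 1) * (16 ^ m * 16)) := by
    rw [← hP]
    push_cast
    linear_combination (-((m : ℚ) + 1) * cb (m + 1) / 2) * hcb
  rw [e1]
  generalize (16 : ℚ) ^ m = N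
  generalize PP (m + 1) = P
  generalize (∑ r ∈ range (m + 1), (2 * (r : ℚ) + 1) * aa (2 * m + 1) r) = O
  push_cast
  field_simp
  ring

lemma Q_odd_even (m : ℕ) : Q (2 * (2 * m + 1 + 1) + 1) (2 * m + 1 + 1 + 1) (2 * m + 1)
    = (2 ^ (2 * (2 * m + 1 + 1) + 1)) ^ 2 * ((2 * ((m : ℚ) + 1) + 1) / 4 * PP (m + 1) * (1 - PP (m + 1))) := by
  unfold Q
  have t1 := T1 (2 * m + 1)
  have t2 := T2 (2 * m + 1)
  have t3 := T3 (2 * m + 1)
  have t4 := T4 (2 * m + 1)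
  rw [show (2 * m + 1 + 1 + 2) / 2 = m + 1 + 1 by omega] at t1 t2 t3 t4
  rw [show (2 * m + 1 + 1 + 1) / 2 = m + 1 by omega] at t3 t4
  rw [show 2 * m + 1 + 2 = 2 * m + 1 + 1 + 1 by ring, t1, t2, t3, t4]
  have t := sum_tel (2 * m + 1 + 1) (m + 1) (by omega)
  have s0 := sum_half_even (m + 1)
  rw [show 2 * (m + 1) = 2 * m + 1 + 1 by ring] at s0
  have haa : aa (2 * m + 1 + 1) (m + 1) = cb (m + 1) * cb (m + 1) := by
    unfold aa
    rw [show 2 * m + 1 + 1 - (m + 1) = m + 1 by omega]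
  have s1 : ∑ r ∈ range (m + 1), (2 * (r : ℚ) + 1) * aa (2 * m + 1 + 1) r
      = (2 * m + 3) * (∑ r ∈ range (m + 1), aa (2 * m + 1 + 1) r)
        - (∑ r ∈ range (m + 1), (((2 * m + 1 + 1 : ℕ) : ℚ) - 2 * r) * aa (2 * m + 1 + 1) r) := by
    rw [mul_sum, ← sum_sub_distrib]
    refine sum_congr rfl fun r _ => ?_
    push_cast
    ring
  rw [sum_range_succ (fun r => aa (2 * m + 1 + 1) r), sum_range_succ (fun r : ℕ => (((2 * m + 1 + 1 : ℕ) : ℚ) - 2 * r) * aa (2 * m + 1 + 1) r),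
    s1, t, s0, haa, PP_eq]
  have h4 : (4 : ℚ) ^ (2 * m + 1 + 1) = 16 ^ (m + 1) := by
    rw [show 2 * m + 1 + 1 = 2 * (m + 1) by ring, pow_mul]; norm_num
  have h2 : (2 : ℚ) ^ (2 * (2 * m + 1 + 1) + 1) = 2 * 16 ^ (m + 1) := by
    rw [show 2 * (2 * m + 1 + 1) + 1 = 4 * (m + 1) + 1 by ring, pow_succ, pow_mul]; norm_num; ring
  rw [h4, h2]
  generalize (16 : ℚ) ^ (m + 1) = N
  generalize PP (m + 1) = P
  have hm2 : (2 * (m : ℚ) + 1 + 2) ≠ 0 := by positivity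
  push_cast
  field_simp
  ring

end

end Pool.Agent.W286.AZ
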