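import Pool.Agent.W286.AZ.Sign
import Pool.Agent.W286.AZ.Vals2

set_option linter.all false

namespace Pool.Agent.W286.AZ

open Finset Matrix Equiv

noncomputable section

lemma Kn_zero (k l i j : ℕ) (h : ¬ Adj k l i j) : Kn k l i j = 0 := by
  unfold Adj at h
  unfold Kn
  split_ifs <;> first | (exfalso; omega) | norm_num

lemma Kn_up (k l i j : ℕ) (h : i = k) (hj : j = l ∨ j = l + 1) :
    Kn k l i j = if j = l + 1 then -1 else 1 := by
  unfold Kn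
  split_ifs <;> first | (exfalso; omega) | norm_num

lemma Kn_dn (k l i j : ℕ) (h : i + 1 = k) (hj : j = l ∨ j = l + 1) :
    Kn k l i j = 1 := by
  unfold Kn
  split_ifs <;> first | (exfalso; omega) | norm_num

def Kt {n : ℕ} (b0 b1 : Bl n) (w0 w1 : Wh n) (b : Bl n) (w : Wh n) : ℚ :=
  if b = b0 then (if w = w0 then 1 else 0) else (K n b w - (if b = b1 ∧ w = w1 then 2 else 0))

def Am (n : ℕ) : Matrix (Bl n) (Bl n) ℚ := (K n).submatrix id (e0 n)

def At {n : ℕ} (b0 b1 : Bl n) (w0 w1 : Wh n) : Matrix (Bl n) (Bl n) ℚ :=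
  ((Am n).updateRow b1 ((Am n) b1 - (2 : ℚ) • (Pi.single ((e0 n).symm w1) 1 : Bl n → ℚ))).updateRow b0
    (Pi.single ((e0 n).symm w0) 1 : Bl n → ℚ)

lemma At_apply {n : ℕ} (b0 b1 : Bl n) (w0 w1 : Wh n) (b c : Bl n) :
    At b0 b1 w0 w1 b c = Kt b0 b1 w0 w1 b (e0 n c) := by
  unfold At Kt
  by_cases hb : b = b0
  · subst hb
    rw [Matrix.updateRow_self, if_pos rfl, Pi.single_apply]
    congr 1
    simp only [eq_iff_iff]
    rw [Equiv.eq_symm_apply]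
  · rw [Matrix.updateRow_ne hb, if_neg hb]
    by_cases hb1 : b = b1
    · subst hb1
      rw [Matrix.updateRow_self, Pi.sub_apply, Pi.smul_apply, Pi.single_apply]
      simp only [Am, Matrix.submatrix_apply, id_eq, smul_eq_mul, true_and]
      congr 1
      by_cases h : (e0 n) c = w1
      · rw [if_pos h, if_pos (by rw [Equiv.eq_symm_apply]; exact h)]; ring
      · rw [if_neg h, if_neg (by rw [Equiv.eq_symm_apply]; exact h)]; ring
    · rw [Matrix.updateRow_ne hb1, if_neg (by tauto)]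
      simp [Am]

section main

variable {n : ℕ} (b0 b1 : Bl n) (w0 w1 : Wh n)
  (h1 : (b1.1 : ℕ) = b0.1) (h2 : (b1.2 : ℕ) = b0.2 + 1)
  (h3 : (w0.1 : ℕ) + 1 = b0.1) (h4 : (w0.2 : ℕ) = b0.2 + 2)
  (h5 : (w1.1 : ℕ) + 1 = b0.1) (h6 : (w1.2 : ℕ) = b0.2 + 1)

def s0 (n : ℕ) : ℤ := ((-1) ^ (n - 1)) ^ ((∑ w : Wh n, (w.1 : ℕ)) + Fintype.card (Bl n) - ∑ b : Bl n, (b.1 : ℕ))

lemma s0_abs (n : ℕ) : |(s0 n : ℚ)| = 1 := by
  unfold s0
  push_cast
  rw [abs_pow, abs_pow, abs_neg, abs_one, one_pow, one_pow]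

include h1 h2 h3 h4 h5 h6

lemma Kt_val (f : Bl n ≃ Wh n) (hf : IsM b0 w0 f) (b : Bl n) :
    Kt b0 b1 w0 w1 b (f b) = ((sg (((f b).1 : ℕ) = b.1 ∧ ((f b).2 : ℕ) = b.2 + 1) : ℤ) : ℚ) *
      (if b = b1 then ((sg (((f b1).1 : ℕ) ≠ b1.1) : ℤ) : ℚ) else 1) := by
  have hE := Ed_of h3 h4 hf b
  unfold Kt
  by_cases hb : b = b0
  · subst hb
    have hb1 : b ≠ b1 := by
      intro h
      have : (b1.2 : ℕ) = b.2 := by rw [← h]
      omega
    rw [if_pos rfl, if_neg hb1, if_pos hf.1]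
    unfold Ed at hE
    unfold sg
    rw [if_neg (by omega)]
    norm_num
  · rw [if_neg hb]
    obtain ⟨ha, hj⟩ := hf.2 b hb
    by_cases hb1 : b = b1
    · subst hb1
      rw [if_pos rfl]
      simp only [true_and]
      rcases ha with ha | ha
      · have hw : f b ≠ w1 := by
          intro h
          rw [h] at ha
          omega
        rw [if_neg hw, sub_zero]
        unfold K sg
        rw [Kn_up _ _ _ _ ha hj]
        have e1 : ¬ (((f b).1 : ℕ) ≠ b.1) := by omega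
        rw [if_neg e1]
        by_cases e2 : ((f b).2 : ℕ) = b.2 + 1
        · rw [if_pos e2, if_pos ⟨ha, e2⟩]; norm_num
        · rw [if_neg e2, if_neg (by tauto)]; norm_num
      · have hw : f b = w1 := by
          have hne : f b ≠ w0 := by
            intro h
            rw [← hf.1] at h
            exact hb (f.injective h)
          apply Prod.ext
          · apply Fin.ext; omega
          · apply Fin.ext
            rcases hj with hj | hj
            · omega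
            · exfalso
              apply hne
              apply Prod.ext
              · apply Fin.ext; omega
              · apply Fin.ext; omega
        rw [if_pos hw]
        unfold K sg
        rw [Kn_dn _ _ _ _ ha hj]
        rw [if_neg (by omega), if_pos (by omega)]
        norm_num
    · rw [if_neg hb1, if_neg (by tauto), sub_zero, mul_one]
      unfold K sg
      rcases ha with ha | ha
      · rw [Kn_up _ _ _ _ ha hj]
        by_cases e2 : ((f b).2 : ℕ) = b.2 + 1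
        · rw [if_pos e2, if_pos ⟨ha, e2⟩]; norm_num
        · rw [if_neg e2, if_neg (by tauto)]; norm_num
      · rw [Kn_dn _ _ _ _ ha hj, if_neg (by omega)]; norm_num

lemma term_pos (τ : Equiv.Perm (Bl n)) (hf : IsM b0 w0 (τ.trans (e0 n))) :
    (((Equiv.Perm.sign τ : ℤˣ) : ℤ) : ℚ) * ∏ b, At b0 b1 w0 w1 b (τ b) = s0 n := by
  set f := τ.trans (e0 n) with hfdef
  have e1 : ∏ b, At b0 b1 w0 w1 b (τ b) = ∏ b, Kt b0 b1 w0 w1 b (f b) := by
    refine prod_congr rfl fun b _ => ?_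
    rw [At_apply, hfdef]
    rfl
  rw [e1, prod_congr rfl (fun b _ => Kt_val b0 b1 w0 w1 h1 h2 h3 h4 h5 h6 f hf b), Finset.prod_mul_distrib,
    Finset.prod_ite_eq' univ b1, if_pos (Finset.mem_univ _)]
  rw [sign_lx n τ f hfdef, inv_split b0 w0 h3 h4 f hf, inv_three b0 b1 w0 h3 h4 f hf h1 h2,
    inv_one_two b0 w0 h3 h4 f hf, Finset.prod_mul_distrib, Finset.prod_ite, Finset.prod_const,
    Finset.prod_const_one, mul_one, card_up b0 w0 h3 h4 f hf]
  have q1 : (∏ b : Bl n, sg (((f b).1 : ℕ) = b.1 ∧ ((f b).2 : ℕ) = b.2 + 1)) *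
      (∏ b : Bl n, sg (((f b).1 : ℕ) = b.1 ∧ ((f b).2 : ℕ) = b.2 + 1)) = 1 := by
    rw [← Finset.prod_mul_distrib]
    exact Finset.prod_eq_one (fun b _ => sg_sq _)
  have q2 := sg_sq (((f b1).1 : ℕ) ≠ b1.1)
  have q1' : (∏ b : Bl n, ((sg (((f b).1 : ℕ) = b.1 ∧ ((f b).2 : ℕ) = b.2 + 1) : ℤ) : ℚ)) *
      (∏ b : Bl n, ((sg (((f b).1 : ℕ) = b.1 ∧ ((f b).2 : ℕ) = b.2 + 1) : ℤ) : ℚ)) = 1 := by
    exact_mod_cast q1
  have q2' : ((sg (((f b1).1 : ℕ) ≠ b1.1) : ℤ) : ℚ) * ((sg (((f b1).1 : ℕ) ≠ b1.1) : ℤ) : ℚ) = 1 := by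
    exact_mod_cast q2
  unfold s0
  push_cast
  generalize (∏ b : Bl n, ((sg (((f b).1 : ℕ) = b.1 ∧ ((f b).2 : ℕ) = b.2 + 1) : ℤ) : ℚ)) = X at *
  generalize ((sg (((f b1).1 : ℕ) ≠ b1.1) : ℤ) : ℚ) = Y at *
  generalize (((-1 : ℚ) ^ (n - 1)) ^ (∑ w : Wh n, (w.1 : ℕ) + Fintype.card (Bl n) - ∑ b : Bl n, (b.1 : ℕ))) = Z at *
  linear_combination (Z * Y * Y) * q1' + Z * q2'

omit h1 h2 h3 h4 in
lemma term_neg (h1 : (b1.1 : ℕ) = b0.1) (h2 : (b1.2 : ℕ) = b0.2 + 1) (τ : Equiv.Perm (Bl n)) (hf : ¬ IsM b0 w0 (τ.trans (e0 n))) :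
    ∏ b, At b0 b1 w0 w1 b (τ b) = 0 := by
  rw [Finset.prod_eq_zero_iff]
  unfold IsM at hf
  rw [not_and_or] at hf
  rcases hf with hf | hf
  · refine ⟨b0, Finset.mem_univ _, ?_⟩
    rw [At_apply]
    unfold Kt
    rw [if_pos rfl, if_neg]
    exact hf
  · push Not at hf
    obtain ⟨b, hb, hA⟩ := hf
    refine ⟨b, Finset.mem_univ _, ?_⟩
    rw [At_apply]
    unfold Kt
    rw [if_neg hb]
    have e : ¬ (b = b1 ∧ (e0 n) (τ b) = w1) := by
      rintro ⟨rfl, h⟩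
      apply hA
      show Adj _ _ ((e0 n) (τ b)).1 ((e0 n) (τ b)).2
      rw [h]
      unfold Adj
      omega
    rw [if_neg e, sub_zero]
    exact Kn_zero _ _ _ _ hA

open Classical in
/-- number of matchings -/
def Mc {n : ℕ} (b0 : Bl n) (w0 : Wh n) : ℕ := Nat.card {f : Bl n ≃ Wh n // IsM b0 w0 f}

lemma det_At : (At b0 b1 w0 w1).det = s0 n * (Mc b0 w0 : ℚ) := by
  classical
  rw [← Matrix.det_transpose, Matrix.det_apply']
  have e : ∀ τ : Equiv.Perm (Bl n), (((Equiv.Perm.sign τ : ℤˣ) : ℤ) : ℚ) * ∏ i, (At b0 b1 w0 w1)ᵀ (τ i) i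
      = if IsM b0 w0 (τ.trans (e0 n)) then (s0 n : ℚ) else 0 := by
    intro τ
    have : ∏ i, (At b0 b1 w0 w1)ᵀ (τ i) i = ∏ b, At b0 b1 w0 w1 b (τ b) := rfl
    rw [this]
    split_ifs with h
    · exact term_pos b0 b1 w0 w1 h1 h2 h3 h4 h5 h6 τ h
    · rw [term_neg b0 b1 w0 w1 h5 h6 h1 h2 τ h, mul_zero]
  rw [sum_congr rfl (fun τ _ => e τ), ← Finset.sum_filter, Finset.sum_const, nsmul_eq_mul, mul_comm]
  congr 2
  unfold Mc
  rw [Nat.card_eq_fintype_card, ← Fintype.card_subtype]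
  apply Fintype.card_congr
  refine Equiv.subtypeEquiv (Equiv.equivCongr (Equiv.refl _) (e0 n)) ?_
  intro τ
  simp [Equiv.equivCongr]

lemma Mc_eq (hn : 1 ≤ n) (hκ : (b0.1 : ℕ) ≤ n) (hl : (b0.2 : ℕ) + 2 ≤ n) :
    (Mc b0 w0 : ℚ) = |Q n b0.1 b0.2| / (2 ^ n) ^ 2 * 2 ^ (n * (n + 1) / 2) := by
  have hb : b0 ≠ b1 := by
    intro h
    have : (b1.2 : ℕ) = b0.2 := by rw [← h]
    omega
  have sol : ∀ (w : Wh n), (w.1 : ℕ) + 1 = b0.1 → ∑ b : Bl n, xs n (b0.1 - 1) w.2 b.1 b.2 • (Am n) b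
      = (2 ^ n : ℚ) • (Pi.single ((e0 n).symm w) 1 : Bl n → ℚ) := by
    intro w hw
    ext c
    rw [Finset.sum_apply]
    simp only [Pi.smul_apply, smul_eq_mul, Pi.single_apply]
    have h := xs_sol n (b0.1 - 1) w.2 hn (by omega) (by have := w.2.2; omega) ((e0 n c).1) ((e0 n c).2)
      ((e0 n c).1.2) (by have := (e0 n c).2.2; omega)
    have h' : ∑ b : Bl n, xs n (b0.1 - 1) w.2 b.1 b.2 * (Am n) b c
        = ∑ b : Bl n, xs n (b0.1 - 1) w.2 b.1 b.2 * Kn b.1 b.2 (e0 n c).1 (e0 n c).2 := rfl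
    rw [h', h]
    by_cases e : c = (e0 n).symm w
    · subst e
      rw [Equiv.apply_symm_apply]
      rw [if_pos ⟨by omega, rfl⟩, if_pos rfl]; ring
    · rw [if_neg e, if_neg]
      · ring
      · rintro ⟨hi, hj⟩
        apply e
        rw [Equiv.eq_symm_apply]
        exact Prod.ext (Fin.ext (by omega)) (Fin.ext hj)
  have key := det_two (Am n) b0 b1 ((e0 n).symm w0) ((e0 n).symm w1) hb (2 ^ n)
    (fun b => xs n (b0.1 - 1) w0.2 b.1 b.2) (fun b => xs n (b0.1 - 1) w1.2 b.1 b.2)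
    (sol w0 h3) (sol w1 h5)
  have hxs : ∀ j l, xs n (b0.1 - 1) j b0.1 l = S n b0.1 j l := by
    intro j l
    unfold xs S
    rw [if_pos (by omega)]
    rw [show (b0.1 : ℕ) - (b0.1 - 1) - 1 = 0 by omega, show (b0.1 : ℕ) - 1 + 1 = b0.1 by omega]
    simp
  have hQ : (2 ^ n : ℚ) * xs n (b0.1 - 1) w0.2 b0.1 b0.2 - 2 * (xs n (b0.1 - 1) w0.2 b0.1 b0.2 * xs n (b0.1 - 1) w1.2 b1.1 b1.2
      - xs n (b0.1 - 1) w0.2 b1.1 b1.2 * xs n (b0.1 - 1) w1.2 b0.1 b0.2) = Q n b0.1 b0.2 := by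
    unfold Q
    rw [h1, h2, h4, h6, hxs, hxs, hxs, hxs]
  beta_reduce at key
  rw [hQ] at key
  have hAt : (At b0 b1 w0 w1).det = s0 n * (Mc b0 w0 : ℚ) := det_At b0 b1 w0 w1 h1 h2 h3 h4 h5 h6
  unfold At at hAt
  rw [hAt] at key
  have habs := congrArg abs key
  rw [abs_mul, abs_mul, abs_mul, s0_abs, one_mul] at habs
  have hdet : |(Am n).det| = 2 ^ (n * (n + 1) / 2) := by
    have hsq := det_K_sq n hn (e0 n)
    have hev : 2 ∣ n * (n + 1) := (Nat.even_mul_succ_self n).two_dvd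
    have : ((2 : ℚ) ^ (n * (n + 1) / 2)) ^ 2 = 2 ^ (n * (n + 1)) := by
      rw [← pow_mul, Nat.div_mul_cancel hev]
    rw [← this] at hsq
    have h := (sq_eq_sq_iff_abs_eq_abs _ _).1 hsq
    rw [abs_of_pos (show (0 : ℚ) < 2 ^ (n * (n + 1) / 2) by positivity)] at h
    exact h
  rw [hdet] at habs
  have hM : |(Mc b0 w0 : ℚ)| = Mc b0 w0 := abs_of_nonneg (by positivity)
  rw [hM, abs_of_pos (show (0 : ℚ) < (2 ^ n) ^ 2 by positivity)] at habs
  have hne : ((2 : ℚ) ^ n) ^ 2 ≠ 0 := by positivity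
  field_simp
  linarith

end main

end

end Pool.Agent.W286.AZ
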