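import Pool.Agent.W286.AZ.Basic

set_option linter.all false

namespace Pool.Agent.W286.AZ

open Polynomial Finset Matrix
open scoped Kronecker

noncomputable section

/-- black vertices -/
abbrev Bl (n : ℕ) := Fin (n + 1) × Fin n
/-- white vertices -/
abbrev Wh (n : ℕ) := Fin n × Fin (n + 1)

/-- signed biadjacency of the Aztec graph -/
def Kn (k l i j : ℕ) : ℚ :=
  (if i = k then (if j = l then 1 else 0) - (if j = l + 1 then 1 else 0) else 0) +
  (if i + 1 = k then (if j = l then 1 else 0) + (if j = l + 1 then 1 else 0) else 0)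

def K (n : ℕ) : Matrix (Bl n) (Wh n) ℚ := fun b w => Kn b.1 b.2 w.1 w.2

lemma sum_ite_a (n : ℕ) (f : ℕ → ℚ) (hf : f n = 0) (j : ℕ) (hj : j ≤ n) :
    ∑ l ∈ range n, f l * (if j = l then 1 else 0) = f j := by
  rcases Nat.lt_or_ge j n with h | h
  · rw [Finset.sum_eq_single j]
    · simp
    · intro b _ hb; simp [Ne.symm hb]
    · intro hn; simp at hn; omega
  · have : j = n := le_antisymm hj h
    subst this
    rw [hf]
    apply Finset.sum_eq_zero
    intro l hl
    simp at hl
    rw [if_neg (by omega)]; ring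

lemma sum_ite_b (n : ℕ) (f : ℕ → ℚ) (j : ℕ) (hj : j ≤ n) :
    ∑ l ∈ range n, f l * (if j = l + 1 then 1 else 0) = sh f j := by
  cases j with
  | zero => simp
  | succ j =>
    rw [Finset.sum_eq_single j]
    · simp
    · intro b _ hb
      rw [if_neg (by omega)]; ring
    · intro hn; simp at hn; omega

lemma rowsum (n : ℕ) (F : ℕ → ℕ → ℚ) (hF : ∀ k, k ≤ n → F k n = 0) (i j : ℕ) (hi : i < n) (hj : j ≤ n) :
    ∑ b : Bl n, F b.1 b.2 * Kn b.1 b.2 i j
      = (F i j - sh (F i) j) + (F (i + 1) j + sh (F (i + 1)) j) := by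
  rw [Fintype.sum_prod_type]
  rw [show ∑ x : Fin (n + 1), ∑ y : Fin n, F (x : ℕ) (y : ℕ) * Kn x y i j
      = ∑ x ∈ range (n + 1), ∑ y ∈ range n, F x y * Kn x y i j by
    rw [← Fin.sum_univ_eq_sum_range (fun x => ∑ y ∈ range n, F x y * Kn x y i j) (n + 1)]
    refine sum_congr rfl fun x _ => ?_
    exact Fin.sum_univ_eq_sum_range (fun y => F x y * Kn x y i j) n]
  have h1 : ∀ x ∈ range (n + 1), ∑ y ∈ range n, F x y * Kn x y i j =
      (if i = x then F i j - sh (F i) j else 0) +
      (if i + 1 = x then F (i + 1) j + sh (F (i + 1)) j else 0) := by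
    intro x hx
    unfold Kn
    simp only [mul_add, sum_add_distrib]
    congr 1
    · by_cases h : i = x
      · subst h
        simp only [if_true, mul_sub, sum_sub_distrib]
        rw [sum_ite_a n _ (hF i (by omega)) j hj, sum_ite_b n _ j hj]
      · simp [h]
    · by_cases h : i + 1 = x
      · subst h
        simp only [if_true, mul_add, sum_add_distrib]
        rw [sum_ite_a n _ (hF (i + 1) (by omega)) j hj, sum_ite_b n _ j hj]
      · simp [h]
  rw [sum_congr rfl h1, sum_add_distrib]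
  congr 1
  · rw [Finset.sum_ite_eq, if_pos (by simp; omega)]
  · rw [Finset.sum_ite_eq, if_pos (by simp; omega)]

/-- square Krawtchouk matrix -/
def Hm (n : ℕ) : Matrix (Fin n) (Fin n) ℚ := fun a l => H (n - 1) a l

lemma Hm_mul_self (n : ℕ) (hn : 1 ≤ n) : Hm n * Hm n = (2 ^ (n - 1) : ℚ) • (1 : Matrix _ _ ℚ) := by
  ext a j
  rw [Matrix.mul_apply]
  simp only [Hm, Matrix.smul_apply, smul_eq_mul, Matrix.one_apply]
  rw [Fin.sum_univ_eq_sum_range (fun x => H (n - 1) a x * H (n - 1) x j) n]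
  have h := sum_H_H (m := n - 1) (a := a) (by omega) j
  rw [show n - 1 + 1 = n by omega] at h
  rw [h]
  by_cases e : (a : Fin n) = j
  · subst e; simp
  · rw [if_neg (by intro h'; exact e (Fin.ext h'.symm)), if_neg e]; ring

lemma det_Hm_sq (n : ℕ) (hn : 1 ≤ n) : (Hm n).det ^ 2 = 2 ^ ((n - 1) * n) := by
  have h := congrArg Matrix.det (Hm_mul_self n hn)
  rw [Matrix.det_mul, Matrix.det_smul, Matrix.det_one, mul_one, Fintype.card_fin] at h
  rw [sq, h, ← pow_mul]

/-- path matrix -/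
def Pin (k a i a' : ℕ) : ℚ :=
  (if i = k ∧ a' = a + 1 then 1 else 0) + (if i + 1 = k ∧ a' = a then 1 else 0)

def Pm (n : ℕ) : Matrix (Bl n) (Wh n) ℚ := fun b w => Pin b.1 b.2 w.1 w.2

/-- the matching of the path graph -/
def e1 (n : ℕ) : Bl n ≃ Wh n where
  toFun b := if h : b.2.val < b.1.val then (⟨b.1.val - 1, by have := b.1.2; omega⟩, ⟨b.2.val, by have := b.2.2; omega⟩)
    else (⟨b.1.val, by have := b.2.2; omega⟩, ⟨b.2.val + 1, by have := b.2.2; omega⟩)
  invFun w := if h : w.2.val ≤ w.1.val then (⟨w.1.val + 1, by have := w.1.2; omega⟩, ⟨w.2.val, by have := w.1.2; omega⟩)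
    else (⟨w.1.val, by have := w.1.2; omega⟩, ⟨w.2.val - 1, by have := w.2.2; omega⟩)
  left_inv b := by
    obtain ⟨⟨k, hk⟩, ⟨a, ha⟩⟩ := b
    by_cases h : a < k
    · simp only [h, dif_pos]
      rw [dif_pos (by show a ≤ k - 1; omega)]
      ext <;> simp <;> omega
    · simp only [h, dif_neg, not_false_eq_true]
      rw [dif_neg (by show ¬ (a + 1 ≤ k); omega)]
      ext <;> simp
  right_inv w := by
    obtain ⟨⟨i, hi⟩, ⟨j, hj⟩⟩ := w
    by_cases h : j ≤ i
    · simp only [h, dif_pos]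
      rw [dif_pos (by show j < i + 1; omega)]
      ext <;> simp
    · simp only [h, dif_neg, not_false_eq_true]
      rw [dif_neg (by show ¬ (j - 1 < i); omega)]
      ext <;> simp <;> omega

lemma e1_fst (n : ℕ) (b : Bl n) : ((e1 n b).1 : ℕ) = if b.2.val < b.1.val then b.1.val - 1 else b.1.val := by
  simp only [e1, Equiv.coe_fn_mk]
  split_ifs <;> rfl

lemma e1_snd (n : ℕ) (b : Bl n) : ((e1 n b).2 : ℕ) = if b.2.val < b.1.val then b.2.val else b.2.val + 1 := by
  simp only [e1, Equiv.coe_fn_mk]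
  split_ifs <;> rfl

def lev {n : ℕ} (b : Bl n) : ℤ := if b.2.val < b.1.val then (b.1.val : ℤ) else -(b.1.val : ℤ)

lemma Pm_val (n : ℕ) (b c : Bl n) (h : lev c ≤ lev b) :
    (Pm n).submatrix id (e1 n) b c = if b = c then 1 else 0 := by
  simp only [Matrix.submatrix_apply, id_eq, Pm, Pin]
  rw [e1_fst, e1_snd]
  obtain ⟨⟨k, hk⟩, ⟨a, ha⟩⟩ := b
  obtain ⟨⟨k', hk'⟩, ⟨a', ha'⟩⟩ := c
  simp only [lev, Prod.mk.injEq, Fin.mk.injEq] at h ⊢
  by_cases h1 : a < k <;> by_cases h2 : a' < k'
  · simp only [h1, h2, if_true] at h ⊢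
    rw [if_neg (by omega)]
    by_cases e : k = k' ∧ a = a'
    · rw [if_pos (by omega), if_pos e]; ring
    · rw [if_neg (by omega), if_neg e]; ring
  · simp only [h1, h2, if_true, if_false] at h ⊢
    rw [if_neg (by omega), if_neg (by omega), if_neg (by omega)]; ring
  · simp only [h1, h2, if_true, if_false] at h ⊢
    rw [if_neg (by omega), if_neg (by omega), if_neg (by omega)]; ring
  · simp only [h1, h2, if_false] at h ⊢
    rw [if_neg (c := k' + 1 = k ∧ a' + 1 = a) (by omega)]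
    by_cases e : k = k' ∧ a = a'
    · rw [if_pos (by omega), if_pos e]; ring
    · rw [if_neg (by omega), if_neg e]; ring

lemma det_Pm (n : ℕ) : ((Pm n).submatrix id (e1 n)).det = 1 := by
  have hT : Matrix.BlockTriangular ((Pm n).submatrix id (e1 n)) (lev (n := n)) := by
    intro b c h
    rw [Pm_val n b c h.le, if_neg]
    rintro rfl
    exact lt_irrefl _ h
  rw [hT.det]
  apply Finset.prod_eq_one
  intro z _
  have : Matrix.toSquareBlock ((Pm n).submatrix id (e1 n)) lev z = 1 := by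
    ext ⟨b, hb⟩ ⟨c, hc⟩
    rw [Matrix.toSquareBlock_def]
    simp only [Matrix.of_apply]
    rw [Pm_val n b c (by rw [hb, hc]), Matrix.one_apply]
    simp [Subtype.mk.injEq]
  rw [this, Matrix.det_one]

def Rm (n : ℕ) : Matrix (Bl n) (Bl n) ℚ := (1 : Matrix (Fin (n + 1)) (Fin (n + 1)) ℚ) ⊗ₖ Hm n
def Cm (n : ℕ) : Matrix (Wh n) (Wh n) ℚ := (1 : Matrix (Fin n) (Fin n) ℚ) ⊗ₖ Hm (n + 1)

lemma RK_eq (n : ℕ) (hn : 1 ≤ n) : Rm n * K n = Pm n * Cm n := by
  ext ⟨k, a⟩ ⟨i, j⟩
  rw [Matrix.mul_apply, Matrix.mul_apply]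
  have hk := k.2
  have ha := a.2
  have hi := i.2
  have hj := j.2
  have hL : ∑ b : Bl n, Rm n (k, a) b * K n b (i, j) =
      ∑ b : Bl n, (fun k' l => if (k : ℕ) = k' then H (n - 1) a l else 0) b.1 b.2 * Kn b.1 b.2 i j := by
    refine sum_congr rfl fun b _ => ?_
    simp only [Rm, Matrix.kroneckerMap_apply, Matrix.one_apply, Hm, K]
    by_cases e : k = b.1
    · rw [if_pos e, if_pos (by rw [e])]; ring
    · rw [if_neg e, if_neg (fun h => e (Fin.ext h))]; ring
  have hL2 := rowsum n (fun k' l => if (k : ℕ) = k' then H (n - 1) a l else 0) (by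
    intro k' _
    show (if (k : ℕ) = k' then H (n - 1) a n else 0) = 0
    split_ifs
    · exact H_eq_zero (by omega) (by omega)
    · rfl) i j hi (by omega)
  refine hL.trans (hL2.trans ?_)
  have hR : ∑ w : Wh n, Pm n (k, a) w * Cm n w (i, j)
      = ∑ a' ∈ range (n + 1), Pin k a i a' * H n a' j := by
    rw [Fintype.sum_prod_type]
    rw [Finset.sum_eq_single i]
    · rw [← Fin.sum_univ_eq_sum_range (fun a' => Pin k a i a' * H n a' j) (n + 1)]
      refine sum_congr rfl fun a' _ => ?_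
      simp [Cm, Pm, Hm, Matrix.kroneckerMap_apply]
    · intro i' _ hne
      apply Finset.sum_eq_zero
      intro a' _
      simp [Cm, Matrix.kroneckerMap_apply, Matrix.one_apply, hne]
    · intro h; exact absurd (Finset.mem_univ _) h
  rw [hR]
  have e1' : ∑ a' ∈ range (n + 1), Pin k a i a' * H n a' j =
      (if (i : ℕ) = k then H n (a + 1) j else 0) + (if (i : ℕ) + 1 = k then H n a j else 0) := by
    unfold Pin
    simp only [add_mul, sum_add_distrib]
    congr 1
    · rw [Finset.sum_eq_single (a.val + 1)]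
      · by_cases e : (i : ℕ) = k <;> simp [e]
      · intro b _ hb
        rw [if_neg (by tauto)]; ring
      · intro h; exact absurd (Finset.mem_range.2 (by omega)) h
    · rw [Finset.sum_eq_single a.val]
      · by_cases e : (i : ℕ) + 1 = k <;> simp [e]
      · intro b _ hb
        rw [if_neg (by tauto)]; ring
      · intro h; exact absurd (Finset.mem_range.2 (by omega)) h
  rw [e1']
  have hu := H_up (m := n - 1) (a := a) (by omega) j
  have hd := H_dn (m := n - 1) (a := a) (by omega) j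
  rw [show n - 1 + 1 = n by omega] at hu hd
  have sh_ite : ∀ (p : Prop) [Decidable p] (f : ℕ → ℚ) (j : ℕ),
      sh (fun l => if p then f l else 0) j = if p then sh f j else 0 := by
    intro p _ f j
    cases j <;> simp
  rw [sh_ite, sh_ite]
  congr 1
  · by_cases e : (k : ℕ) = i
    · rw [if_pos e, if_pos e, if_pos e.symm, hu]
    · rw [if_neg e, if_neg e, if_neg (Ne.symm e)]; ring
  · by_cases e : (k : ℕ) = i + 1
    · rw [if_pos e, if_pos e, if_pos e.symm, hd]
    · rw [if_neg e, if_neg e, if_neg (fun h => e h.symm)]; ring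

lemma det_K_sq (n : ℕ) (hn : 1 ≤ n) (e : Bl n ≃ Wh n) :
    ((K n).submatrix id e).det ^ 2 = 2 ^ (n * (n + 1)) := by
  have h1 : ((K n).submatrix id e).det ^ 2 = ((K n).submatrix id (e1 n)).det ^ 2 := by
    have : (K n).submatrix id e = ((K n).submatrix id (e1 n)).submatrix id (e.trans (e1 n).symm) := by
      ext b c; simp
    rw [this]
    rw [Matrix.det_permute' (e.trans (e1 n).symm : Equiv.Perm (Bl n))]
    rw [mul_pow]
    have : (((Equiv.Perm.sign (e.trans (e1 n).symm : Equiv.Perm (Bl n)) : ℤˣ) : ℤ) : ℚ) ^ 2 = 1 := by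
      rcases Int.units_eq_one_or (Equiv.Perm.sign (e.trans (e1 n).symm : Equiv.Perm (Bl n))) with h | h <;>
        rw [h] <;> norm_num
    rw [this, one_mul]
  rw [h1]
  have hmul : Rm n * (K n).submatrix id (e1 n) = (Pm n).submatrix id (e1 n) * (Cm n).submatrix (e1 n) (e1 n) := by
    rw [Matrix.submatrix_mul_equiv, ← RK_eq n hn]
    ext b c
    simp [Matrix.mul_apply]
  have hdet := congrArg Matrix.det hmul
  rw [Matrix.det_mul, Matrix.det_mul, det_Pm, one_mul, Matrix.det_submatrix_equiv_self] at hdet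
  unfold Rm Cm at hdet
  rw [Matrix.det_kronecker, Matrix.det_kronecker] at hdet
  simp only [Matrix.det_one, one_pow, one_mul, Fintype.card_fin] at hdet
  have h2 := congrArg (fun x => x ^ 2) hdet
  simp only [mul_pow] at h2
  rw [← pow_mul, mul_comm (n + 1) 2, pow_mul, det_Hm_sq n hn] at h2
  rw [← pow_mul (Hm (n + 1)).det n 2, mul_comm n 2, pow_mul (Hm (n + 1)).det 2 n,
    det_Hm_sq (n + 1) (by omega)] at h2
  rw [← pow_mul, ← pow_mul, Nat.add_sub_cancel] at h2
  have h3 : (2 : ℚ) ^ (n * (n + 1) * n) = 2 ^ ((n - 1) * n * (n + 1)) * 2 ^ (n * (n + 1)) := by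
    rw [← pow_add]
    congr 1
    obtain ⟨m, rfl⟩ : ∃ m, n = m + 1 := ⟨n - 1, by omega⟩
    simp only [Nat.add_sub_cancel]
    ring
  rw [h3] at h2
  have h4 : (2 : ℚ) ^ ((n - 1) * n * (n + 1)) ≠ 0 := by positivity
  exact mul_left_cancel₀ h4 h2

end

end Pool.Agent.W286.AZ
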