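import Pool.Agent.W286.AZ.Solve

set_option linter.all false

namespace Pool.Agent.W286.AZ

open Finset Matrix Equiv

noncomputable section

lemma sign_prod {B : Type*} [Fintype B] [DecidableEq B] {N : ℕ} (v : B ≃ Fin N) (τ : Equiv.Perm B) :
    ((Equiv.Perm.sign τ : ℤˣ) : ℤ) = ∏ b, ∏ b', (if v b < v b' ∧ v (τ b') < v (τ b) then (-1 : ℤ) else 1) := by
  rw [← Equiv.Perm.sign_permCongr v τ]
  have hπ : ∀ b, (v.permCongr τ) (v b) = v (τ b) := by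
    intro b; simp [Equiv.permCongr_apply]
  generalize v.permCongr τ = π at hπ ⊢
  simp only [← hπ]
  rw [Equiv.Perm.sign_eq_prod_prod_Ioi]
  push_cast
  rw [← Equiv.prod_comp v]
  refine prod_congr rfl fun b _ => ?_
  rw [Equiv.prod_comp v (fun j => if v b < j ∧ π j < π (v b) then (-1 : ℤ) else 1)]
  rw [show Finset.Ioi (v b) = Finset.univ.filter (fun j => v b < j) by ext; simp, Finset.prod_filter]
  refine prod_congr rfl fun j _ => ?_
  by_cases h : v b < j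
  · have hne : π (v b) ≠ π j := by
      intro h'
      exact h.ne (π.injective h')
    rcases lt_or_gt_of_ne hne with h2 | h2
    · simp [h, h2, not_lt.2 h2.le]
    · simp [h, h2, not_lt.2 h2.le]
  · simp [h]

/-- lexicographic order on pairs of numbers -/
def lx (x a x' a' : ℕ) : Prop := x < x' ∨ (x = x' ∧ a < a')

instance (x a x' a' : ℕ) : Decidable (lx x a x' a') := by unfold lx; infer_instance

lemma lx_iff (n x a x' a' : ℕ) (ha : a < n) (ha' : a' < n) :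
    a + n * x < a' + n * x' ↔ lx x a x' a' := by
  unfold lx
  constructor
  · intro h
    rcases Nat.lt_trichotomy x x' with h1 | h1 | h1
    · exact Or.inl h1
    · subst h1
      right; exact ⟨rfl, by omega⟩
    · exfalso
      have : n * (x' + 1) ≤ n * x := Nat.mul_le_mul_left n h1
      rw [Nat.mul_add] at this
      omega
  · rintro (h | ⟨rfl, h⟩)
    · have : n * (x + 1) ≤ n * x' := Nat.mul_le_mul_left n h
      rw [Nat.mul_add] at this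
      omega
    · omega

/-- numbering of the black vertices -/
def vB (n : ℕ) : Bl n ≃ Fin ((n + 1) * n) := finProdFinEquiv
/-- numbering of the white vertices -/
def vW (n : ℕ) : Wh n ≃ Fin ((n + 1) * n) := finProdFinEquiv.trans (finCongr (Nat.mul_comm n (n + 1)))

lemma vB_lt (n : ℕ) (b b' : Bl n) : vB n b < vB n b' ↔ lx b.1 b.2 b'.1 b'.2 := by
  rw [← lx_iff n _ _ _ _ b.2.2 b'.2.2]
  rfl

lemma vW_lt (n : ℕ) (w w' : Wh n) : vW n w < vW n w' ↔ lx w.1 w.2 w'.1 w'.2 := by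
  rw [← lx_iff (n + 1) _ _ _ _ w.2.2 w'.2.2]
  rfl

def e0 (n : ℕ) : Bl n ≃ Wh n := (vB n).trans (vW n).symm

lemma sign_lx (n : ℕ) (τ : Equiv.Perm (Bl n)) (f : Bl n ≃ Wh n) (hf : f = τ.trans (e0 n)) :
    ((Equiv.Perm.sign τ : ℤˣ) : ℤ) = ∏ b : Bl n, ∏ b' : Bl n,
      (if lx b.1 b.2 b'.1 b'.2 ∧ lx (f b').1 (f b').2 (f b).1 (f b).2 then (-1 : ℤ) else 1) := by
  rw [sign_prod (vB n) τ]
  refine prod_congr rfl fun b _ => ?_
  refine prod_congr rfl fun b' _ => ?_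
  have h : ∀ c, vB n (τ c) = vW n (f c) := by
    intro c
    rw [hf]
    simp [e0]
  rw [h, h]
  simp only [vB_lt, vW_lt]

/-- adjacency in the Aztec graph -/
def Adj (k l i j : ℕ) : Prop := (i = k ∨ i + 1 = k) ∧ (j = l ∨ j = l + 1)

instance (k l i j : ℕ) : Decidable (Adj k l i j) := by unfold Adj; infer_instance

/-- matchings with a prescribed virtual edge -/
def IsM {n : ℕ} (b0 : Bl n) (w0 : Wh n) (f : Bl n ≃ Wh n) : Prop :=
  f b0 = w0 ∧ ∀ b, b ≠ b0 → Adj b.1 b.2 (f b).1 (f b).2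

def sg (p : Prop) [Decidable p] : ℤ := if p then -1 else 1

lemma sg_sq (p : Prop) [Decidable p] : sg p * sg p = 1 := by
  unfold sg; split_ifs <;> norm_num

lemma sg_or (p q : Prop) [Decidable p] [Decidable q] (h : ¬ (p ∧ q)) : sg (p ∨ q) = sg p * sg q := by
  unfold sg
  by_cases hp : p <;> by_cases hq : q
  · exact absurd ⟨hp, hq⟩ h
  all_goals simp [hp, hq]

lemma sg_congr {p q : Prop} [Decidable p] [Decidable q] (h : p ↔ q) : sg p = sg q := by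
  unfold sg
  by_cases hp : p
  · simp [hp, h.1 hp]
  · have hq : ¬ q := fun hq => hp (h.2 hq)
    simp [hp, hq]

/-- arithmetic description of one edge of the matching -/
def Ed (κ l0 k l i j : ℕ) : Prop :=
  (k = κ ∧ l = l0 ∧ i + 1 = κ ∧ j = l0 + 2) ∨ (¬ (k = κ ∧ l = l0) ∧ (i = k ∨ i + 1 = k) ∧ (j = l ∨ j = l + 1))

lemma pair_arith (κ l0 k l i j k' l' i' j' : ℕ) (hE : Ed κ l0 k l i j) (hE' : Ed κ l0 k' l' i' j')
    (hinj : (i = i' ∧ j = j') → (k = k' ∧ l = l')) :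
    (lx k l k' l' ∧ lx i' j' i j) ↔
      ((k = k' ∧ l < l' ∧ i = k ∧ i' ≠ k') ∨ (k' = k + 1 ∧ i = k ∧ i' ≠ k' ∧ j' < j)) ∨
        ((k = κ ∧ l = l0) ∧ (k' = κ ∧ l' = l0 + 1) ∧ i' ≠ k') := by
  unfold lx
  unfold Ed at hE hE'
  rcases hE with ⟨hk, hl, hi, hj⟩ | ⟨hn, hi | hi, hj | hj⟩ <;>
    rcases hE' with ⟨hk', hl', hi', hj'⟩ | ⟨hn', hi' | hi', hj' | hj'⟩ <;>
    constructor <;> omega

lemma excl1 (κ l0 k l i j k' l' i' j' : ℕ) (hE : Ed κ l0 k l i j) :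
    ¬ (((k = k' ∧ l < l' ∧ i = k ∧ i' ≠ k') ∨ (k' = k + 1 ∧ i = k ∧ i' ≠ k' ∧ j' < j)) ∧
        ((k = κ ∧ l = l0) ∧ (k' = κ ∧ l' = l0 + 1) ∧ i' ≠ k')) := by
  unfold Ed at hE
  rcases hE with hE | hE <;> omega

lemma excl2 (k l i j k' l' i' j' : ℕ) :
    ¬ ((k = k' ∧ l < l' ∧ i = k ∧ i' ≠ k') ∧ (k' = k + 1 ∧ i = k ∧ i' ≠ k' ∧ j' < j)) := by
  omega


lemma Ed_of {n : ℕ} {b0 : Bl n} {w0 : Wh n} {f : Bl n ≃ Wh n}
    (h3 : (w0.1 : ℕ) + 1 = b0.1) (h4 : (w0.2 : ℕ) = b0.2 + 2) (hf : IsM b0 w0 f) (b : Bl n) :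
    Ed b0.1 b0.2 b.1 b.2 (f b).1 (f b).2 := by
  unfold Ed
  by_cases h : b = b0
  · subst h
    left
    rw [hf.1]
    exact ⟨rfl, rfl, h3, h4⟩
  · right
    obtain ⟨ha, hb⟩ := hf.2 b h
    refine ⟨?_, ha, hb⟩
    rintro ⟨h', h''⟩
    exact h (Prod.ext (Fin.ext h') (Fin.ext h''))

lemma inj_of {n : ℕ} (f : Bl n ≃ Wh n) (b b' : Bl n) :
    ((f b).1.val = (f b').1.val ∧ (f b).2.val = (f b').2.val) → (b.1.val = b'.1.val ∧ b.2.val = b'.2.val) := by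
  rintro ⟨h, h'⟩
  have : f b = f b' := Prod.ext (Fin.ext h) (Fin.ext h')
  have := f.injective this
  subst this
  exact ⟨rfl, rfl⟩

lemma inj_of' {n : ℕ} (f : Bl n ≃ Wh n) (b b' : Bl n) :
    (b.1.val = b'.1.val ∧ b.2.val = b'.2.val) → ((f b).1.val = (f b').1.val ∧ (f b).2.val = (f b').2.val) := by
  rintro ⟨h, h'⟩
  have : b = b' := Prod.ext (Fin.ext h) (Fin.ext h')
  subst this
  exact ⟨rfl, rfl⟩

/-- the statistic counted with signs along up edges -/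
lemma prod_row (n : ℕ) (k l : ℕ) (hk : k < n + 1) (hl : l < n) (p : Prop) [Decidable p] :
    ∏ b' : Bl n, sg (k = b'.1 ∧ l < b'.2 ∧ p) = if p then (-1) ^ (n - 1 - l) else 1 := by
  by_cases hp : p
  · rw [if_pos hp, Fintype.prod_prod_type]
    rw [Finset.prod_eq_single (⟨k, hk⟩ : Fin (n + 1))]
    · simp only [sg, hp, and_true, true_and]
      rw [Fin.prod_univ_eq_prod_range (fun y => if l < y then (-1 : ℤ) else 1) n, Finset.prod_ite]
      simp only [Finset.prod_const, one_pow, mul_one]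
      congr 1
      rw [show Finset.filter (fun x => l < x) (range n) = Finset.Ioo l n by
        ext x; simp; omega]
      rw [Nat.card_Ioo]
      omega
    · intro x _ hx
      apply Finset.prod_eq_one
      intro y _
      unfold sg
      rw [if_neg]
      rintro ⟨h, _⟩
      exact hx (Fin.ext h.symm)
    · intro h; exact absurd (Finset.mem_univ _) h
  · rw [if_neg hp]
    apply Finset.prod_eq_one
    intro b _
    simp [sg, hp]

lemma prod_row2 (n : ℕ) (k j : ℕ) (hk : k < n) (hj : j ≤ n) (p : Prop) [Decidable p] :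
    ∏ w : Wh n, sg ((w.1 : ℕ) = k ∧ p ∧ (w.2 : ℕ) < j) = if p then (-1) ^ j else 1 := by
  by_cases hp : p
  · rw [if_pos hp, Fintype.prod_prod_type]
    rw [Finset.prod_eq_single (⟨k, hk⟩ : Fin n)]
    · simp only [sg, hp, and_true, true_and]
      rw [Fin.prod_univ_eq_prod_range (fun y => if y < j then (-1 : ℤ) else 1) (n + 1), Finset.prod_ite]
      simp only [Finset.prod_const, one_pow, mul_one]
      congr 1
      rw [show Finset.filter (fun x => x < j) (range (n + 1)) = Finset.range j by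
        ext x; simp; omega]
      rw [Finset.card_range]
    · intro x _ hx
      apply Finset.prod_eq_one
      intro y _
      unfold sg
      rw [if_neg]
      rintro ⟨h, _⟩
      exact hx (Fin.ext h)
    · intro h; exact absurd (Finset.mem_univ _) h
  · rw [if_neg hp]
    apply Finset.prod_eq_one
    intro b _
    simp [sg, hp]

lemma sg_mul_of {p q r : Prop} [Decidable p] [Decidable q] [Decidable r] (hx : ¬ (p ∧ q)) (h : (p ∨ q) ↔ r) :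
    sg p * sg q = sg r := by
  rw [← sg_or p q hx]
  exact sg_congr h

section main

variable {n : ℕ} (b0 b1 : Bl n) (w0 w1 : Wh n)
  (h1 : (b1.1 : ℕ) = b0.1) (h2 : (b1.2 : ℕ) = b0.2 + 1)
  (h3 : (w0.1 : ℕ) + 1 = b0.1) (h4 : (w0.2 : ℕ) = b0.2 + 2)
  (h5 : (w1.1 : ℕ) + 1 = b0.1) (h6 : (w1.2 : ℕ) = b0.2 + 1)
  (f : Bl n ≃ Wh n) (hf : IsM b0 w0 f)

include h3 h4 hf

lemma inv_split : (∏ b : Bl n, ∏ b' : Bl n,
      (if lx b.1 b.2 b'.1 b'.2 ∧ lx (f b').1 (f b').2 (f b).1 (f b).2 then (-1 : ℤ) else 1))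
    = (∏ b : Bl n, ∏ b' : Bl n, sg ((b.1 : ℕ) = b'.1 ∧ (b.2 : ℕ) < b'.2 ∧ ((f b).1 : ℕ) = b.1 ∧ ((f b').1 : ℕ) ≠ b'.1)) *
      (∏ b : Bl n, ∏ b' : Bl n, sg ((b'.1 : ℕ) = b.1 + 1 ∧ ((f b).1 : ℕ) = b.1 ∧ ((f b').1 : ℕ) ≠ b'.1 ∧ ((f b').2 : ℕ) < (f b).2)) *
      (∏ b : Bl n, ∏ b' : Bl n, sg (((b.1 : ℕ) = b0.1 ∧ (b.2 : ℕ) = b0.2) ∧ ((b'.1 : ℕ) = b0.1 ∧ (b'.2 : ℕ) = b0.2 + 1) ∧ ((f b').1 : ℕ) ≠ b'.1)) := by
  rw [← Finset.prod_mul_distrib, ← Finset.prod_mul_distrib]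
  refine prod_congr rfl fun b _ => ?_
  rw [← Finset.prod_mul_distrib, ← Finset.prod_mul_distrib]
  refine prod_congr rfl fun b' _ => ?_
  have hE := Ed_of h3 h4 hf b
  have hE' := Ed_of h3 h4 hf b'
  have hp := pair_arith b0.1 b0.2 b.1 b.2 (f b).1 (f b).2 b'.1 b'.2 (f b').1 (f b').2 hE hE' (inj_of f b b')
  rw [← sg_or _ _ (excl2 _ _ _ _ _ _ _ _), ← sg_or _ _ (excl1 _ _ _ _ _ _ _ _ _ _ hE)]
  exact sg_congr hp

lemma inv_three (h1 : (b1.1 : ℕ) = b0.1) (h2 : (b1.2 : ℕ) = b0.2 + 1) :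
    (∏ b : Bl n, ∏ b' : Bl n, sg (((b.1 : ℕ) = b0.1 ∧ (b.2 : ℕ) = b0.2) ∧ ((b'.1 : ℕ) = b0.1 ∧ (b'.2 : ℕ) = b0.2 + 1) ∧ ((f b').1 : ℕ) ≠ b'.1))
    = sg (((f b1).1 : ℕ) ≠ b1.1) := by
  rw [Finset.prod_eq_single b0]
  · rw [Finset.prod_eq_single b1]
    · apply sg_congr
      constructor
      · rintro ⟨_, _, h⟩; exact h
      · intro h; exact ⟨⟨rfl, rfl⟩, ⟨h1, h2⟩, h⟩
    · intro b' _ hb'
      unfold sg
      rw [if_neg]
      rintro ⟨_, ⟨h, h'⟩, _⟩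
      exact hb' (Prod.ext (Fin.ext (h.trans h1.symm)) (Fin.ext (h'.trans h2.symm)))
    · intro h; exact absurd (Finset.mem_univ _) h
  · intro b _ hb
    apply Finset.prod_eq_one
    intro b' _
    unfold sg
    rw [if_neg]
    rintro ⟨⟨h, h'⟩, _⟩
    exact hb (Prod.ext (Fin.ext h) (Fin.ext h'))
  · intro h; exact absurd (Finset.mem_univ _) h

lemma inv_one_two :
    (∏ b : Bl n, ∏ b' : Bl n, sg ((b.1 : ℕ) = b'.1 ∧ (b.2 : ℕ) < b'.2 ∧ ((f b).1 : ℕ) = b.1 ∧ ((f b').1 : ℕ) ≠ b'.1)) *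
      (∏ b : Bl n, ∏ b' : Bl n, sg ((b'.1 : ℕ) = b.1 + 1 ∧ ((f b).1 : ℕ) = b.1 ∧ ((f b').1 : ℕ) ≠ b'.1 ∧ ((f b').2 : ℕ) < (f b).2))
    = ∏ b : Bl n, ((if ((f b).1 : ℕ) = b.1 then (-1 : ℤ) ^ (n - 1) else 1) *
        sg (((f b).1 : ℕ) = b.1 ∧ ((f b).2 : ℕ) = b.2 + 1)) := by
  set R1 : Bl n → Bl n → ℤ := fun b b' =>
    sg ((b.1 : ℕ) = b'.1 ∧ (b.2 : ℕ) < b'.2 ∧ ((f b).1 : ℕ) = b.1 ∧ ((f b').1 : ℕ) = b'.1) with hR1
  set R2 : Bl n → Bl n → ℤ := fun b b' =>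
    sg ((b'.1 : ℕ) = b.1 ∧ ((f b).1 : ℕ) = b.1 ∧ ((f b').1 : ℕ) = b'.1 ∧ ((f b').2 : ℕ) < (f b).2) with hR2
  have hsym : ∏ b, ∏ b', R1 b b' = ∏ b, ∏ b', R2 b b' := by
    rw [Finset.prod_comm (f := R2)]
    refine prod_congr rfl fun b _ => ?_
    refine prod_congr rfl fun b' _ => ?_
    have hE := Ed_of h3 h4 hf b
    have hE' := Ed_of h3 h4 hf b'
    have hi := inj_of f b b'
    have hi2 := inj_of' f b b'
    rw [hR1, hR2]
    apply sg_congr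
    unfold Ed at hE hE'
    constructor <;> omega
  have hsq : (∏ b, ∏ b', R1 b b') * (∏ b, ∏ b', R1 b b') = 1 := by
    rw [← Finset.prod_mul_distrib]
    apply Finset.prod_eq_one
    intro b _
    rw [← Finset.prod_mul_distrib]
    apply Finset.prod_eq_one
    intro b' _
    exact sg_sq _
  have hA : (∏ b : Bl n, ∏ b' : Bl n, sg ((b.1 : ℕ) = b'.1 ∧ (b.2 : ℕ) < b'.2 ∧ ((f b).1 : ℕ) = b.1 ∧ ((f b').1 : ℕ) ≠ b'.1))
      * (∏ b, ∏ b', R1 b b') = ∏ b : Bl n, (if ((f b).1 : ℕ) = b.1 then (-1 : ℤ) ^ (n - 1 - b.2) else 1) := by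
    rw [← Finset.prod_mul_distrib]
    refine prod_congr rfl fun b _ => ?_
    rw [← Finset.prod_mul_distrib, ← prod_row n b.1 b.2 b.1.2 b.2.2]
    refine prod_congr rfl fun b' _ => ?_
    rw [hR1]
    apply sg_mul_of <;> omega
  have hB : (∏ b : Bl n, ∏ b' : Bl n, sg ((b'.1 : ℕ) = b.1 + 1 ∧ ((f b).1 : ℕ) = b.1 ∧ ((f b').1 : ℕ) ≠ b'.1 ∧ ((f b').2 : ℕ) < (f b).2))
      * (∏ b, ∏ b', R2 b b') = ∏ b : Bl n, (if ((f b).1 : ℕ) = b.1 then (-1 : ℤ) ^ ((f b).2 : ℕ) else 1) := by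
    rw [← Finset.prod_mul_distrib]
    refine prod_congr rfl fun b _ => ?_
    rw [← Finset.prod_mul_distrib]
    have hlast : ∏ b' : Bl n, sg (((f b').1 : ℕ) = b.1 ∧ ((f b).1 : ℕ) = b.1 ∧ ((f b').2 : ℕ) < (f b).2)
        = (if ((f b).1 : ℕ) = b.1 then (-1 : ℤ) ^ ((f b).2 : ℕ) else 1) := by
      rw [Equiv.prod_comp f (fun w : Wh n => sg ((w.1 : ℕ) = b.1 ∧ ((f b).1 : ℕ) = b.1 ∧ (w.2 : ℕ) < (f b).2))]
      by_cases h : ((f b).1 : ℕ) = b.1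
      · have := (f b).1.2
        exact prod_row2 n b.1 (f b).2 (by omega) (by have := (f b).2.2; omega) _
      · rw [if_neg h]
        apply Finset.prod_eq_one
        intro w _
        simp [sg, h]
    rw [← hlast]
    refine prod_congr rfl fun b' _ => ?_
    have hE' := Ed_of h3 h4 hf b'
    rw [hR2]
    unfold Ed at hE'
    apply sg_mul_of
    · omega
    · generalize ((f b').1 : ℕ) = x1 at *
      generalize ((f b').2 : ℕ) = x2 at *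
      generalize ((f b).1 : ℕ) = y1 at *
      generalize ((f b).2 : ℕ) = y2 at *
      constructor <;> omega
  have hfin : (∏ b : Bl n, ∏ b' : Bl n, sg ((b.1 : ℕ) = b'.1 ∧ (b.2 : ℕ) < b'.2 ∧ ((f b).1 : ℕ) = b.1 ∧ ((f b').1 : ℕ) ≠ b'.1)) *
      (∏ b : Bl n, ∏ b' : Bl n, sg ((b'.1 : ℕ) = b.1 + 1 ∧ ((f b).1 : ℕ) = b.1 ∧ ((f b').1 : ℕ) ≠ b'.1 ∧ ((f b').2 : ℕ) < (f b).2))
      = (∏ b : Bl n, (if ((f b).1 : ℕ) = b.1 then (-1 : ℤ) ^ (n - 1 - b.2) else 1)) *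
        (∏ b : Bl n, (if ((f b).1 : ℕ) = b.1 then (-1 : ℤ) ^ ((f b).2 : ℕ) else 1)) := by
    rw [← hA, ← hB, ← hsym]
    set x := (∏ b, ∏ b', R1 b b')
    linear_combination (-(∏ b : Bl n, ∏ b' : Bl n, sg ((b.1 : ℕ) = b'.1 ∧ (b.2 : ℕ) < b'.2 ∧ ((f b).1 : ℕ) = b.1 ∧ ((f b').1 : ℕ) ≠ b'.1)) *
      (∏ b : Bl n, ∏ b' : Bl n, sg ((b'.1 : ℕ) = b.1 + 1 ∧ ((f b).1 : ℕ) = b.1 ∧ ((f b').1 : ℕ) ≠ b'.1 ∧ ((f b').2 : ℕ) < (f b).2))) * hsq
  rw [hfin, ← Finset.prod_mul_distrib]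
  refine prod_congr rfl fun b _ => ?_
  have hE := Ed_of h3 h4 hf b
  unfold Ed at hE
  have hl := b.2.2
  by_cases h : ((f b).1 : ℕ) = b.1
  · rw [if_pos h, if_pos h, if_pos h]
    have hj : ((f b).2 : ℕ) = b.2 ∨ ((f b).2 : ℕ) = b.2 + 1 := by omega
    rcases hj with hj | hj
    · unfold sg
      rw [if_neg (by omega), hj, ← pow_add, mul_one]
      congr 1
      omega
    · unfold sg
      rw [if_pos (by omega), hj, ← pow_add, ← pow_succ]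
      congr 1
      omega
  · rw [if_neg h, if_neg h, if_neg h]
    unfold sg
    rw [if_neg (by omega)]

/-- number of up edges -/
lemma card_up : (Finset.univ.filter (fun b : Bl n => ((f b).1 : ℕ) = b.1)).card
    = (∑ w : Wh n, (w.1 : ℕ)) + Fintype.card (Bl n) - ∑ b : Bl n, (b.1 : ℕ) := by
  have e : ∑ b : Bl n, (((f b).1 : ℕ) + 1) = ∑ b : Bl n, ((b.1 : ℕ) + if ((f b).1 : ℕ) = b.1 then 1 else 0) := by
    refine sum_congr rfl fun b _ => ?_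
    have hE := Ed_of h3 h4 hf b
    unfold Ed at hE
    split_ifs with h <;> omega
  rw [sum_add_distrib, sum_add_distrib, Equiv.sum_comp f (fun w : Wh n => (w.1 : ℕ))] at e
  rw [Finset.card_filter]
  simp only [Finset.sum_const, smul_eq_mul, mul_one] at e
  rw [Finset.card_univ] at e
  omega

end main

end

end Pool.Agent.W286.AZ
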