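import Pool.Agent.W286.AZ.Det

set_option linter.all false

namespace Pool.Agent.W286.AZ

open Polynomial Finset Matrix

noncomputable section

/-- explicit solution of the linear system with a source at the white vertex `(i0, j)` -/
def xs (n i0 j k l : ℕ) : ℚ :=
  if i0 + 1 ≤ k then (-1) ^ (k - i0 - 1) * ∑ i ∈ range (i0 + 1), H n j i * H (n - 1) (i + (k - i0 - 1)) l
  else (-1) ^ (i0 - k) * ∑ i ∈ Ico (i0 + 1) (n + 1), H n j i * H (n - 1) (i - 1 - (i0 - k)) l

lemma sh_lin {ι : Type*} (s : Finset ι) (c : ℚ) (g : ι → ℚ) (f : ι → ℕ → ℚ) (j : ℕ) :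
    sh (fun l => c * ∑ i ∈ s, g i * f i l) j = c * ∑ i ∈ s, g i * sh (f i) j := by
  cases j <;> simp

lemma xs_zero (n i0 j k : ℕ) (hn : 1 ≤ n) (hi : i0 < n) (hk : k ≤ n) : xs n i0 j k n = 0 := by
  unfold xs
  split_ifs with h
  · rw [Finset.sum_eq_zero]; · ring
    intro i hi'
    rw [Finset.mem_range] at hi'
    rw [H_eq_zero (m := n - 1) (a := i + (k - i0 - 1)) (j := n) (by omega) (by omega)]; ring
  · rw [Finset.sum_eq_zero]; · ring
    intro i hi'
    rw [Finset.mem_Ico] at hi'
    rw [H_eq_zero (m := n - 1) (a := i - 1 - (i0 - k)) (j := n) (by omega) (by omega)]; ring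

lemma xs_ge (n i0 j k : ℕ) (h : i0 + 1 ≤ k) : xs n i0 j k = fun l =>
    (-1) ^ (k - i0 - 1) * ∑ i ∈ range (i0 + 1), H n j i * H (n - 1) (i + (k - i0 - 1)) l := by
  funext l
  unfold xs
  rw [if_pos h]

lemma xs_lt (n i0 j k : ℕ) (h : ¬ i0 + 1 ≤ k) : xs n i0 j k = fun l =>
    (-1) ^ (i0 - k) * ∑ i ∈ Ico (i0 + 1) (n + 1), H n j i * H (n - 1) (i - 1 - (i0 - k)) l := by
  funext l
  unfold xs
  rw [if_neg h]

lemma xs_sol (n i0 j : ℕ) (hn : 1 ≤ n) (hi0 : i0 < n) (hj : j ≤ n) (i j' : ℕ) (hi : i < n) (hj' : j' ≤ n) :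
    ∑ b : Bl n, xs n i0 j b.1 b.2 * Kn b.1 b.2 i j' = if i = i0 ∧ j' = j then 2 ^ n else 0 := by
  rw [rowsum n (xs n i0 j) (fun k hk => xs_zero n i0 j k hn hi0 hk) i j' hi hj']
  have hup : ∀ a, a ≤ n - 1 → H (n - 1) a j' - sh (H (n - 1) a) j' = H n (a + 1) j' := by
    intro a ha
    have := H_up ha j'
    rw [show n - 1 + 1 = n by omega] at this
    rw [this]
  have hdn : ∀ a, a ≤ n - 1 → H (n - 1) a j' + sh (H (n - 1) a) j' = H n a j' := by
    intro a ha
    have := H_dn ha j'
    rw [show n - 1 + 1 = n by omega] at this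
    rw [this]
  rcases Nat.lt_trichotomy i i0 with h | h | h
  · -- i < i0
    rw [if_neg (by omega)]
    rw [xs_lt n i0 j i (by omega), xs_lt n i0 j (i + 1) (by omega)]
    rw [sh_lin, sh_lin]
    simp only []
    rw [← mul_sub, ← mul_add, ← sum_sub_distrib, ← sum_add_distrib]
    rw [show i0 - i = (i0 - (i + 1)) + 1 by omega, pow_succ]
    have : ∀ x ∈ Ico (i0 + 1) (n + 1),
        (H n j x * H (n - 1) (x - 1 - (i0 - (i + 1) + 1)) j' - H n j x * sh (H (n - 1) (x - 1 - (i0 - (i + 1) + 1))) j')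
        = (H n j x * H (n - 1) (x - 1 - (i0 - (i + 1))) j' + H n j x * sh (H (n - 1) (x - 1 - (i0 - (i + 1)))) j') := by
      intro x hx
      rw [Finset.mem_Ico] at hx
      rw [← mul_sub, ← mul_add, hup _ (by omega), hdn _ (by omega)]
      congr 2
      omega
    rw [sum_congr rfl this]
    ring
  · subst h
    rw [xs_lt n i j i (by omega), xs_ge n i j (i + 1) (by omega)]
    rw [sh_lin, sh_lin]
    simp only []
    rw [← mul_sub, ← mul_add, ← sum_sub_distrib, ← sum_add_distrib]
    have h1 : ∀ x ∈ Ico (i + 1) (n + 1),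
        (H n j x * H (n - 1) (x - 1 - (i - i)) j' - H n j x * sh (H (n - 1) (x - 1 - (i - i))) j')
        = H n j x * H n x j' := by
      intro x hx
      rw [Finset.mem_Ico] at hx
      rw [← mul_sub, hup _ (by omega)]
      congr 2
      omega
    have h2 : ∀ x ∈ range (i + 1),
        (H n j x * H (n - 1) (x + (i + 1 - i - 1)) j' + H n j x * sh (H (n - 1) (x + (i + 1 - i - 1))) j')
        = H n j x * H n x j' := by
      intro x hx
      rw [Finset.mem_range] at hx
      rw [← mul_add, hdn _ (by omega)]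
      congr 2
      omega
    rw [sum_congr rfl h1, sum_congr rfl h2]
    rw [show i - i = 0 by omega, show i + 1 - i - 1 = 0 by omega, pow_zero, one_mul, one_mul]
    rw [add_comm, Finset.range_eq_Ico, Finset.sum_Ico_consecutive _ (by omega) (by omega), ← Finset.range_eq_Ico]
    rw [sum_H_H hj]
    simp
  · rw [if_neg (by omega)]
    rw [xs_ge n i0 j i (by omega), xs_ge n i0 j (i + 1) (by omega)]
    rw [sh_lin, sh_lin]
    simp only []
    rw [← mul_sub, ← mul_add, ← sum_sub_distrib, ← sum_add_distrib]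
    rw [show i + 1 - i0 - 1 = (i - i0 - 1) + 1 by omega, pow_succ]
    have : ∀ x ∈ range (i0 + 1),
        (H n j x * H (n - 1) (x + (i - i0 - 1 + 1)) j' + H n j x * sh (H (n - 1) (x + (i - i0 - 1 + 1))) j')
        = (H n j x * H (n - 1) (x + (i - i0 - 1)) j' - H n j x * sh (H (n - 1) (x + (i - i0 - 1))) j') := by
      intro x hx
      rw [Finset.mem_range] at hx
      rw [← mul_sub, ← mul_add, hup _ (by omega), hdn _ (by omega)]
      congr 2
    rw [sum_congr rfl this]
    ring

section detlem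

variable {B : Type*} [Fintype B] [DecidableEq B]

lemma det_two (A : Matrix B B ℚ) (b0 b1 p0 p1 : B) (hb : b0 ≠ b1) (N : ℚ) (c0 c1 : B → ℚ)
    (h0 : ∑ b, c0 b • A b = N • (Pi.single p0 1 : B → ℚ))
    (h1 : ∑ b, c1 b • A b = N • (Pi.single p1 1 : B → ℚ)) :
    N ^ 2 * ((A.updateRow b1 (A b1 - (2 : ℚ) • (Pi.single p1 1 : B → ℚ))).updateRow b0 (Pi.single p0 1 : B → ℚ)).det
      = (N * c0 b0 - 2 * (c0 b0 * c1 b1 - c0 b1 * c1 b0)) * A.det := by
  set v0 : B → ℚ := Pi.single p0 1 with hv0
  set v1 : B → ℚ := Pi.single p1 1 with hv1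
  set A0 := A.updateRow b0 v0 with hA0
  have e1 : (A.updateRow b1 (A b1 - (2 : ℚ) • v1)).updateRow b0 v0
      = A0.updateRow b1 (A b1 - (2 : ℚ) • v1) := by
    rw [hA0, Matrix.updateRow_comm _ hb.symm]
  have hA0b1 : A0 b1 = A b1 := by rw [hA0, Matrix.updateRow_ne hb.symm]
  have e2 : (A0.updateRow b1 (A b1 - (2 : ℚ) • v1)).det = A0.det - 2 * (A0.updateRow b1 v1).det := by
    rw [sub_eq_add_neg, ← neg_smul, Matrix.det_updateRow_add, Matrix.det_updateRow_smul]
    rw [← hA0b1, Matrix.updateRow_eq_self]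
    ring
  have e3 : N * A0.det = c0 b0 * A.det := by
    rw [hA0, ← Matrix.det_updateRow_smul, ← h0, Matrix.det_updateRow_sum, smul_eq_mul]
  -- auxiliary matrix with a swapped row
  set A1 := A.updateRow b1 (A b0) with hA1
  have hA1det : A1.det = 0 := by
    apply Matrix.det_zero_of_row_eq hb
    rw [hA1, Matrix.updateRow_self, Matrix.updateRow_ne hb]
  have e4 : A0.updateRow b1 (A b0) = A1.updateRow b0 v0 := by
    rw [hA0, hA1, Matrix.updateRow_comm _ hb]
  have hsw : (A1.updateRow b0 (A b1)).det = - A.det := by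
    have : A1.updateRow b0 (A b1) = A.submatrix (Equiv.swap b0 b1) id := by
      ext i j
      simp only [Matrix.submatrix_apply, id_eq]
      by_cases hi : i = b0
      · subst hi
        rw [Matrix.updateRow_self, Equiv.swap_apply_left]
      · rw [Matrix.updateRow_ne hi]
        by_cases hi' : i = b1
        · subst hi'
          rw [hA1, Matrix.updateRow_self, Equiv.swap_apply_right]
        · rw [hA1, Matrix.updateRow_ne hi', Equiv.swap_apply_of_ne_of_ne hi hi']
    rw [this, Matrix.det_permute, Equiv.Perm.sign_swap hb]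
    simp
  have e5 : N * (A0.updateRow b1 (A b0)).det = - (c0 b1 * A.det) := by
    rw [e4, ← Matrix.det_updateRow_smul, ← h0]
    have hs : ∑ b, c0 b • A b = ∑ b, c0 b • A1 b + c0 b1 • (A b1) + (-c0 b1) • (A b0) := by
      have : ∑ b, c0 b • A b = ∑ b, (c0 b • A1 b + (if b = b1 then c0 b1 • (A b1 - A b0) else 0)) := by
        refine sum_congr rfl fun b _ => ?_
        by_cases h : b = b1
        · subst h
          rw [if_pos rfl, hA1, Matrix.updateRow_self, smul_sub]
          abel
        · rw [if_neg h, hA1, Matrix.updateRow_ne h, add_zero]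
      rw [this, sum_add_distrib, Finset.sum_ite_eq' univ b1, if_pos (Finset.mem_univ _), smul_sub, neg_smul]
      abel
    rw [hs, Matrix.det_updateRow_add, Matrix.det_updateRow_add, Matrix.det_updateRow_sum,
      Matrix.det_updateRow_smul, Matrix.det_updateRow_smul, hA1det, hsw]
    have : A1.updateRow b0 (A b0) = A1 := by
      have : A b0 = A1 b0 := by rw [hA1, Matrix.updateRow_ne hb]
      rw [this, Matrix.updateRow_eq_self]
    rw [this, hA1det]
    simp
  have e6 : N * (A0.updateRow b1 v1).det = c1 b1 * A0.det + c1 b0 * (A0.updateRow b1 (A b0)).det := by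
    rw [← Matrix.det_updateRow_smul, ← h1]
    have hs : ∑ b, c1 b • A b = ∑ b, c1 b • A0 b + c1 b0 • (A b0) + (-c1 b0) • v0 := by
      have : ∑ b, c1 b • A b = ∑ b, (c1 b • A0 b + (if b = b0 then c1 b0 • (A b0 - v0) else 0)) := by
        refine sum_congr rfl fun b _ => ?_
        by_cases h : b = b0
        · subst h
          rw [if_pos rfl, hA0, Matrix.updateRow_self, smul_sub]
          abel
        · rw [if_neg h, hA0, Matrix.updateRow_ne h, add_zero]
      rw [this, sum_add_distrib, Finset.sum_ite_eq' univ b0, if_pos (Finset.mem_univ _), smul_sub, neg_smul]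
      abel
    rw [hs, Matrix.det_updateRow_add, Matrix.det_updateRow_add, Matrix.det_updateRow_sum,
      Matrix.det_updateRow_smul, Matrix.det_updateRow_smul]
    have : (A0.updateRow b1 v0).det = 0 := by
      apply Matrix.det_zero_of_row_eq hb
      rw [Matrix.updateRow_self, Matrix.updateRow_ne hb, hA0, Matrix.updateRow_self]
    rw [this]
    simp
  rw [e1, e2]
  have : N ^ 2 * (A0.det - 2 * (A0.updateRow b1 v1).det)
      = N * (N * A0.det) - 2 * (c1 b1 * (N * A0.det) + c1 b0 * (N * (A0.updateRow b1 (A b0)).det)) := by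
    rw [show N ^ 2 * (A0.det - 2 * (A0.updateRow b1 v1).det)
      = N * (N * A0.det) - 2 * N * (N * (A0.updateRow b1 v1).det) by ring, e6]
    ring
  rw [this, e3, e5]
  ring

end detlem

end

end Pool.Agent.W286.AZ
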