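import Pool.Agent.W286.AZ.Basic

set_option linter.all false

namespace Pool.Agent.W286.AZ

open Polynomial Finset

noncomputable section

def cb (r : ℕ) : ℚ := (Nat.centralBinom r : ℚ)

def aa (c r : ℕ) : ℚ := cb r * cb (c - r)

lemma cb_succ (r : ℕ) : ((r : ℚ) + 1) * cb (r + 1) = 2 * (2 * r + 1) * cb r := by
  unfold cb
  have := Nat.succ_mul_centralBinom_succ r
  exact_mod_cast this

lemma cb_pos (r : ℕ) : 0 < cb r := by
  unfold cb
  exact_mod_cast Nat.centralBinom_pos r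

lemma aa_id {c r : ℕ} (h : r ≤ c) :
    ((2 * c).choose c : ℚ) * (c.choose r : ℚ) ^ 2 = aa c r * ((2 * c).choose (2 * r) : ℚ) := by
  unfold aa cb
  rw [Nat.centralBinom_eq_two_mul_choose, Nat.centralBinom_eq_two_mul_choose]
  rw [Nat.cast_choose ℚ (show c ≤ 2 * c by omega), Nat.cast_choose ℚ h,
    Nat.cast_choose ℚ (show r ≤ 2 * r by omega), Nat.cast_choose ℚ (show c - r ≤ 2 * (c - r) by omega),
    Nat.cast_choose ℚ (show 2 * r ≤ 2 * c by omega)]
  rw [show 2 * c - c = c by omega, show 2 * r - r = r by omega,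
    show 2 * (c - r) - (c - r) = c - r by omega, show 2 * c - 2 * r = 2 * (c - r) by omega]
  have h1 : ((c.factorial : ℕ) : ℚ) ≠ 0 := by exact_mod_cast Nat.factorial_ne_zero _
  have h2 : ((r.factorial : ℕ) : ℚ) ≠ 0 := by exact_mod_cast Nat.factorial_ne_zero _
  have h3 : (((c - r).factorial : ℕ) : ℚ) ≠ 0 := by exact_mod_cast Nat.factorial_ne_zero _
  have h4 : (((2 * r).factorial : ℕ) : ℚ) ≠ 0 := by exact_mod_cast Nat.factorial_ne_zero _
  have h5 : (((2 * (c - r)).factorial : ℕ) : ℚ) ≠ 0 := by exact_mod_cast Nat.factorial_ne_zero _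
  field_simp

lemma g_odd {c r : ℕ} (h : 2 * r + 1 ≤ 2 * c) : H (2 * c) (2 * r + 1) c = 0 := by
  have := H_symm (m := 2 * c) (a := 2 * r + 1) (j := c) h (by omega)
  rw [H_c_odd, mul_zero] at this
  have h1 : (((2 * c).choose (2 * r + 1) : ℕ) : ℚ) ≠ 0 := by
    exact_mod_cast (Nat.choose_pos h).ne'
  exact (mul_eq_zero.1 this).resolve_left h1

lemma g_even {c r : ℕ} (h : r ≤ c) : (-1) ^ r * (c.choose r : ℚ) * H (2 * c) (2 * r) c = aa c r := by
  have := H_symm (m := 2 * c) (a := 2 * r) (j := c) (by omega) (by omega)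
  rw [H_c_even] at this
  have h1 : (((2 * c).choose (2 * r) : ℕ) : ℚ) ≠ 0 := by
    exact_mod_cast (Nat.choose_pos (show 2 * r ≤ 2 * c by omega)).ne'
  have h2 := aa_id h
  have h3 : ((-1 : ℚ) ^ r) * (-1) ^ r = 1 := by
    rw [← mul_pow]; norm_num
  apply mul_left_cancel₀ h1
  calc ((2 * c).choose (2 * r) : ℚ) * ((-1) ^ r * (c.choose r : ℚ) * H (2 * c) (2 * r) c)
      = (-1) ^ r * (c.choose r : ℚ) * (((2 * c).choose (2 * r) : ℚ) * H (2 * c) (2 * r) c) := by ring
    _ = (-1) ^ r * (c.choose r : ℚ) * (((2 * c).choose c : ℚ) * ((-1) ^ r * (c.choose r : ℚ))) := by rw [this]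
    _ = (((-1 : ℚ) ^ r) * (-1) ^ r) * (((2 * c).choose c : ℚ) * (c.choose r : ℚ) ^ 2) := by ring
    _ = ((2 * c).choose (2 * r) : ℚ) * aa c r := by rw [h3, h2]; ring

lemma sum_pairs (M : ℕ) (F : ℕ → ℚ) :
    ∑ i ∈ range (2 * M), F i = ∑ r ∈ range M, F (2 * r) + ∑ r ∈ range M, F (2 * r + 1) := by
  induction M with
  | zero => simp
  | succ M ih =>
    rw [show 2 * (M + 1) = 2 * M + 1 + 1 by ring, sum_range_succ, sum_range_succ, ih,
      sum_range_succ, sum_range_succ]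
    ring

lemma sum_aa (c : ℕ) : ∑ r ∈ range (c + 1), aa c r = 4 ^ c := by
  have h := sum_H_H (m := 2 * c) (a := c) (by omega) c
  rw [if_pos rfl, sum_range_succ, sum_pairs] at h
  have h1 : ∑ r ∈ range c, H (2 * c) c (2 * r) * H (2 * c) (2 * r) c = ∑ r ∈ range c, aa c r := by
    refine sum_congr rfl fun r hr => ?_
    rw [Finset.mem_range] at hr
    rw [H_c_even, g_even (by omega)]
  have h2 : ∑ r ∈ range c, H (2 * c) c (2 * r + 1) * H (2 * c) (2 * r + 1) c = 0 := by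
    apply sum_eq_zero
    intro r _
    rw [H_c_odd, zero_mul]
  rw [h1, h2, H_c_even, g_even (le_refl c), add_zero] at h
  rw [sum_range_succ, h, pow_mul]
  norm_num

lemma aa_symm {c r : ℕ} (h : r ≤ c) : aa c (c - r) = aa c r := by
  unfold aa
  rw [show c - (c - r) = r by omega]
  ring

lemma sum_half_even (m : ℕ) : ∑ r ∈ range m, aa (2 * m) r = (4 ^ (2 * m) - aa (2 * m) m) / 2 := by
  have h := sum_aa (2 * m)
  rw [show 2 * m + 1 = m + (1 + m) by ring, sum_range_add, show 1 + m = m + 1 by ring,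
    sum_range_succ' ] at h
  have h2 : ∑ k ∈ range m, aa (2 * m) (m + (k + 1)) = ∑ r ∈ range m, aa (2 * m) r := by
    rw [← sum_range_reflect (fun r => aa (2 * m) r) m]
    refine sum_congr rfl fun r hr => ?_
    rw [Finset.mem_range] at hr
    rw [← aa_symm (show m - 1 - r ≤ 2 * m by omega)]
    congr 1
    omega
  rw [h2, add_zero] at h
  linarith

lemma sum_half_odd (m : ℕ) : ∑ r ∈ range (m + 1), aa (2 * m + 1) r = 4 ^ (2 * m + 1) / 2 := by
  have h := sum_aa (2 * m + 1)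
  rw [show 2 * m + 1 + 1 = (m + 1) + (m + 1) by ring, sum_range_add] at h
  have h2 : ∑ k ∈ range (m + 1), aa (2 * m + 1) (m + 1 + k) = ∑ r ∈ range (m + 1), aa (2 * m + 1) r := by
    rw [← sum_range_reflect (fun r => aa (2 * m + 1) r) (m + 1)]
    refine sum_congr rfl fun r hr => ?_
    rw [Finset.mem_range] at hr
    rw [← aa_symm (show m + 1 - 1 - r ≤ 2 * m + 1 by omega)]
    congr 1
    omega
  rw [h2] at h
  linarith

lemma sum_tel (c M : ℕ) (h : M ≤ c) :
    ∑ r ∈ range M, ((c : ℚ) - 2 * r) * aa c r = M * (2 * c - 2 * M + 1) * aa c M := by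
  induction M with
  | zero => simp
  | succ M ih =>
    rw [sum_range_succ, ih (by omega)]
    unfold aa
    have h1 := cb_succ M
    have h2 := cb_succ (c - (M + 1))
    rw [show c - (M + 1) + 1 = c - M by omega] at h2
    have h3 : ((c - (M + 1) : ℕ) : ℚ) = c - M - 1 := by
      rw [Nat.cast_sub h]; push_cast; ring
    rw [h3] at h2
    push_cast
    have h4 : ((M : ℚ) + 1) * (2 * c - 2 * (M + 1) + 1) * (cb (M + 1) * cb (c - (M + 1)))
        = (((M : ℚ) + 1) * cb (M + 1)) * ((2 * (c - M - 1) + 1) * cb (c - (M + 1))) := by ring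
    rw [h4, h1]
    have h5 : (2 * (2 * (M : ℚ) + 1) * cb M) * ((2 * (c - M - 1) + 1) * cb (c - (M + 1)))
        = ((2 * (M : ℚ) + 1) * cb M) * (2 * (2 * (c - M - 1) + 1) * cb (c - (M + 1))) := by ring
    rw [h5, ← h2]
    ring

end

end Pool.Agent.W286.AZ
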