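import Pool.Agent.W286.AZ.Count

set_option linter.all false

namespace Pool.Agent.W286.AZ

open Finset

noncomputable section

/-- A domino: two unit cells sharing an edge.  The cell `(x, y)` is the unit square with centre
`(x + 1/2, y + 1/2)`. -/
def IsDomino (d : Set (ℤ × ℤ)) : Prop :=
  ∃ x y : ℤ, d = {(x, y), (x + 1, y)} ∨ d = {(x, y), (x, y + 1)}

/-- A domino tiling of a set of cells. -/
def IsTiling (R : Set (ℤ × ℤ)) (T : Set (Set (ℤ × ℤ))) : Prop :=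
  (∀ d ∈ T, IsDomino d) ∧ (∀ d ∈ T, ∀ d' ∈ T, d ≠ d' → Disjoint d d') ∧ ⋃₀ T = R

def adjC (p q : ℤ × ℤ) : Prop :=
  (p.1 = q.1 ∧ (p.2 = q.2 + 1 ∨ q.2 = p.2 + 1)) ∨ (p.2 = q.2 ∧ (p.1 = q.1 + 1 ∨ q.1 = p.1 + 1))

lemma domino_intro {p q : ℤ × ℤ} (h : adjC p q) : IsDomino {p, q} := by
  obtain ⟨a, b⟩ := p
  obtain ⟨a', b'⟩ := q
  unfold adjC at h
  simp only at h
  rcases h with ⟨h1, h2 | h2⟩ | ⟨h1, h2 | h2⟩
  · refine ⟨a', b', Or.inr ?_⟩
    rw [h1, h2, Set.pair_comm]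
  · refine ⟨a, b, Or.inr ?_⟩
    rw [h1, h2]
  · refine ⟨a', b', Or.inl ?_⟩
    rw [h1, h2, Set.pair_comm]
  · refine ⟨a, b, Or.inl ?_⟩
    rw [h1, h2]

lemma domino_elim {d : Set (ℤ × ℤ)} (hd : IsDomino d) {p : ℤ × ℤ} (hp : p ∈ d) :
    ∃ q, adjC p q ∧ d = {p, q} := by
  obtain ⟨x, y, h | h⟩ := hd
  · rw [h] at hp
    rcases hp with hp | hp
    · refine ⟨(x + 1, y), ?_, ?_⟩
      · rw [hp]; unfold adjC; right; exact ⟨rfl, Or.inr rfl⟩
      · rw [h, hp]
    · rw [Set.mem_singleton_iff] at hp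
      refine ⟨(x, y), ?_, ?_⟩
      · rw [hp]; unfold adjC; right; exact ⟨rfl, Or.inl rfl⟩
      · rw [h, hp, Set.pair_comm]
  · rw [h] at hp
    rcases hp with hp | hp
    · refine ⟨(x, y + 1), ?_, ?_⟩
      · rw [hp]; unfold adjC; left; exact ⟨rfl, Or.inr rfl⟩
      · rw [h, hp]
    · rw [Set.mem_singleton_iff] at hp
      refine ⟨(x, y), ?_, ?_⟩
      · rw [hp]; unfold adjC; left; exact ⟨rfl, Or.inl rfl⟩
      · rw [h, hp, Set.pair_comm]

section gen

variable {n : ℕ} (β : Bl n → ℤ × ℤ) (ω : Wh n → ℤ × ℤ) (b0 : Bl n) (w0 : Wh n)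
  (hβ : Function.Injective β) (hω : Function.Injective ω) (hβω : ∀ b w, β b ≠ ω w)
  (hadj : ∀ b w, adjC (β b) (ω w) ↔ Adj b.1 b.2 w.1 w.2)
  (hsym : ∀ b w, adjC (ω w) (β b) ↔ Adj b.1 b.2 w.1 w.2)
  (hbb : ∀ b b', ¬ adjC (β b) (β b')) (hww : ∀ w w', ¬ adjC (ω w) (ω w'))

def Reg : Set (ℤ × ℤ) := {p | (∃ b, b ≠ b0 ∧ p = β b) ∨ (∃ w, w ≠ w0 ∧ p = ω w)}

def Tf (f : Bl n ≃ Wh n) : Set (Set (ℤ × ℤ)) := {d | ∃ b, b ≠ b0 ∧ d = {β b, ω (f b)}}

include hβ hω hβω hadj hsym hbb hww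

lemma Tf_tiling (f : Bl n ≃ Wh n) (hf : IsM b0 w0 f) : IsTiling (Reg β ω b0 w0) (Tf β ω b0 f) := by
  refine ⟨?_, ?_, ?_⟩
  · rintro d ⟨b, hb, rfl⟩
    exact domino_intro ((hadj _ _).2 (hf.2 b hb))
  · rintro d ⟨b, hb, rfl⟩ d' ⟨b', hb', rfl⟩ hne
    have hbb' : b ≠ b' := by rintro rfl; exact hne rfl
    rw [Set.disjoint_left]
    rintro p (hp | hp) (hp' | hp')
    · exact hbb' (hβ (hp.symm.trans hp'))
    · rw [Set.mem_singleton_iff] at hp'
      exact hβω _ _ (hp.symm.trans hp')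
    · rw [Set.mem_singleton_iff] at hp
      exact hβω _ _ (hp'.symm.trans hp)
    · rw [Set.mem_singleton_iff] at hp hp'
      exact hbb' (f.injective (hω (hp.symm.trans hp')))
  · ext p
    rw [Set.mem_sUnion]
    constructor
    · rintro ⟨d, ⟨b, hb, rfl⟩, hp | hp⟩
      · exact Or.inl ⟨b, hb, hp⟩
      · rw [Set.mem_singleton_iff] at hp
        refine Or.inr ⟨f b, ?_, hp⟩
        intro h
        rw [← hf.1] at h
        exact hb (f.injective h)
    · rintro (⟨b, hb, rfl⟩ | ⟨w, hw, rfl⟩)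
      · exact ⟨_, ⟨b, hb, rfl⟩, Set.mem_insert _ _⟩
      · refine ⟨_, ⟨f.symm w, ?_, rfl⟩, ?_⟩
        · intro h
          apply hw
          rw [← hf.1, ← h, Equiv.apply_symm_apply]
        · rw [Equiv.apply_symm_apply]
          exact Set.mem_insert_of_mem _ (Set.mem_singleton _)

lemma Tf_inj (f g : Bl n ≃ Wh n) (hf : IsM b0 w0 f) (hg : IsM b0 w0 g) (h : Tf β ω b0 f = Tf β ω b0 g) : f = g := by
  ext1 b
  by_cases hb : b = b0
  · rw [hb, hf.1, hg.1]
  · have hm : ({β b, ω (f b)} : Set (ℤ × ℤ)) ∈ Tf β ω b0 g := by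
      rw [← h]; exact ⟨b, hb, rfl⟩
    obtain ⟨b', hb', he⟩ := hm
    have h1 : β b ∈ ({β b', ω (g b')} : Set (ℤ × ℤ)) := by rw [← he]; exact Set.mem_insert _ _
    have h1' : b = b' := by
      rcases h1 with h1 | h1
      · exact hβ h1
      · exact absurd h1 (hβω _ _)
    subst h1'
    have h2 : ω (f b) ∈ ({β b, ω (g b)} : Set (ℤ × ℤ)) := by
      rw [← he]; exact Set.mem_insert_of_mem _ (Set.mem_singleton _)
    rcases h2 with h2 | h2
    · exact absurd h2.symm (hβω _ _)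
    · exact hω h2

lemma Tf_surj (T : Set (Set (ℤ × ℤ))) (hT : IsTiling (Reg β ω b0 w0) T) :
    ∃ f : Bl n ≃ Wh n, IsM b0 w0 f ∧ Tf β ω b0 f = T := by
  classical
  obtain ⟨hd, hdis, hU⟩ := hT
  have uniq : ∀ d ∈ T, ∀ d' ∈ T, ∀ p, p ∈ d → p ∈ d' → d = d' := by
    intro d hd1 d' hd2 p hp hp'
    by_contra hne
    exact Set.disjoint_left.1 (hdis d hd1 d' hd2 hne) hp hp'
  have sub : ∀ d ∈ T, ∀ p ∈ d, p ∈ Reg β ω b0 w0 := by
    intro d hd1 p hp
    rw [← hU]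
    exact ⟨d, hd1, hp⟩
  have hex : ∀ b, b ≠ b0 → ∃ w, w ≠ w0 ∧ Adj b.1 b.2 w.1 w.2 ∧ ({β b, ω w} : Set (ℤ × ℤ)) ∈ T := by
    intro b hb
    have hR : β b ∈ ⋃₀ T := by rw [hU]; exact Or.inl ⟨b, hb, rfl⟩
    obtain ⟨d, hdT, hbd⟩ := hR
    obtain ⟨q, hq, hdq⟩ := domino_elim (hd d hdT) hbd
    have hqR : q ∈ Reg β ω b0 w0 := sub d hdT q (by rw [hdq]; exact Set.mem_insert_of_mem _ (Set.mem_singleton _))
    rcases hqR with ⟨b', _, hq'⟩ | ⟨w, hw, hq'⟩
    · rw [hq'] at hq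
      exact absurd hq (hbb _ _)
    · rw [hq'] at hq hdq
      exact ⟨w, hw, (hadj _ _).1 hq, by rw [← hdq]; exact hdT⟩
  haveI : Nonempty (Wh n) := ⟨w0⟩
  choose! F hF1 hF2 hF3 using hex
  set G : Bl n → Wh n := fun b => if b = b0 then w0 else F b with hG
  have hGinj : Function.Injective G := by
    intro b b' h
    simp only [hG] at h
    by_cases hb : b = b0
    · by_cases hb' : b' = b0
      · rw [hb, hb']
      · rw [if_pos hb, if_neg hb'] at h
        exact absurd h.symm (hF1 b' hb')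
    · by_cases hb' : b' = b0
      · rw [if_neg hb, if_pos hb'] at h
        exact absurd h (hF1 b hb)
      · rw [if_neg hb, if_neg hb'] at h
        have e := uniq _ (hF3 b hb) _ (hF3 b' hb') (ω (F b)) (Set.mem_insert_of_mem _ (Set.mem_singleton _))
          (by rw [h]; exact Set.mem_insert_of_mem _ (Set.mem_singleton _))
        have h1 : β b ∈ ({β b', ω (F b')} : Set (ℤ × ℤ)) := by rw [← e]; exact Set.mem_insert _ _
        rcases h1 with h1 | h1
        · exact hβ h1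
        · exact absurd h1 (hβω _ _)
  have hcard : Fintype.card (Bl n) = Fintype.card (Wh n) := by
    simp [Fintype.card_prod, Nat.mul_comm]
  have hbij : Function.Bijective G := (Fintype.bijective_iff_injective_and_card G).2 ⟨hGinj, hcard⟩
  refine ⟨Equiv.ofBijective G hbij, ⟨?_, ?_⟩, ?_⟩
  · simp [hG]
  · intro b hb
    simp only [Equiv.ofBijective_apply, hG, if_neg hb]
    exact hF2 b hb
  · ext d
    constructor
    · rintro ⟨b, hb, rfl⟩
      simp only [Equiv.ofBijective_apply, hG, if_neg hb]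
      exact hF3 b hb
    · intro hdT
      -- find a black cell in d
      have : ∃ b, b ≠ b0 ∧ β b ∈ d := by
        obtain ⟨x, y, hxy⟩ := hd d hdT
        have hp : (x, y) ∈ d := by rcases hxy with h | h <;> rw [h] <;> exact Set.mem_insert _ _
        rcases sub d hdT _ hp with ⟨b, hb, hpb⟩ | ⟨w, hw, hpw⟩
        · exact ⟨b, hb, by rw [← hpb]; exact hp⟩
        · rw [hpw] at hp
          obtain ⟨q, hq, hdq⟩ := domino_elim (hd d hdT) hp
          have hqd : q ∈ d := by rw [hdq]; exact Set.mem_insert_of_mem _ (Set.mem_singleton _)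
          rcases sub d hdT q hqd with ⟨b, hb, hq'⟩ | ⟨w', _, hq'⟩
          · exact ⟨b, hb, by rw [← hq']; exact hqd⟩
          · rw [hq'] at hq
            exact absurd hq (hww _ _)
      obtain ⟨b, hb, hbd⟩ := this
      refine ⟨b, hb, ?_⟩
      simp only [Equiv.ofBijective_apply, hG, if_neg hb]
      exact uniq _ hdT _ (hF3 b hb) (β b) hbd (Set.mem_insert _ _)

lemma card_tilings : Set.ncard {T | IsTiling (Reg β ω b0 w0) T} = Mc b0 w0 := by
  unfold Mc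
  rw [← Nat.card_coe_set_eq]
  symm
  apply Nat.card_eq_of_bijective
    (fun f : {f : Bl n ≃ Wh n // IsM b0 w0 f} =>
      (⟨Tf β ω b0 f.1, Tf_tiling β ω b0 w0 hβ hω hβω hadj hsym hbb hww f.1 f.2⟩ : {T | IsTiling (Reg β ω b0 w0) T}))
  constructor
  · rintro ⟨f, hf⟩ ⟨g, hg⟩ h
    simp only [Subtype.mk.injEq] at h ⊢
    exact Tf_inj β ω b0 w0 hβ hω hβω hadj hsym hbb hww f g hf hg h
  · rintro ⟨T, hT⟩
    obtain ⟨f, hf, hfT⟩ := Tf_surj β ω b0 w0 hβ hω hβω hadj hsym hbb hww T hT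
    exact ⟨⟨f, hf⟩, Subtype.ext hfT⟩

end gen

/-- The Aztec diamond of order `n`. -/
def aztec (n : ℕ) : Set (ℤ × ℤ) := {p | |2 * p.1 + 1| + |2 * p.2 + 1| ≤ 2 * (n : ℤ)}

/-- The Aztec diamond with the cells centred at `(-1/2, -1/2)` and `(1/2, 3/2)` removed. -/
def region (n : ℕ) : Set (ℤ × ℤ) := aztec n \ {(-1, -1), (0, 1)}

/-- number of domino tilings of the region -/
def tilings (n : ℕ) : ℕ := Set.ncard {T | IsTiling (region n) T}

lemma mem_aztec (n : ℕ) (x y : ℤ) : (x, y) ∈ aztec n ↔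
    (x + y + 1 ≤ n ∧ -n ≤ x + y + 1 ∧ x - y ≤ n ∧ -n ≤ x - y) := by
  unfold aztec
  simp only [Set.mem_setOf_eq]
  rcases abs_cases (2 * x + 1) with ⟨h1, h1'⟩ | ⟨h1, h1'⟩ <;>
  rcases abs_cases (2 * y + 1) with ⟨h2, h2'⟩ | ⟨h2, h2'⟩ <;>
  rw [h1, h2] <;> constructor <;> omega

/-- embedding for even order -/
def βe (n : ℕ) (b : Bl n) : ℤ × ℤ := ((b.1 : ℤ) + b.2 - n, (b.2 : ℤ) - b.1)
def ωe (n : ℕ) (w : Wh n) : ℤ × ℤ := ((w.1 : ℤ) + w.2 - n, (w.2 : ℤ) - w.1 - 1)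
/-- embedding for odd order -/
def βo (n : ℕ) (b : Bl n) : ℤ × ℤ := ((n : ℤ) - 1 - b.1 - b.2, (b.1 : ℤ) - b.2 - 1)
def ωo (n : ℕ) (w : Wh n) : ℤ × ℤ := ((n : ℤ) - 1 - w.1 - w.2, (w.1 : ℤ) - w.2)

lemma tilings_even (d : ℕ) : ∃ (b0 : Bl (2 * (d + 1))) (w0 : Wh (2 * (d + 1))),
    (b0.1 : ℕ) = d + 1 ∧ (b0.2 : ℕ) = d ∧ (w0.1 : ℕ) + 1 = b0.1 ∧ (w0.2 : ℕ) = b0.2 + 2 ∧
    tilings (2 * (d + 1)) = Mc b0 w0 := by
  refine ⟨(⟨d + 1, by omega⟩, ⟨d, by omega⟩), (⟨d, by omega⟩, ⟨d + 2, by omega⟩), rfl, rfl, rfl, rfl, ?_⟩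
  rw [← card_tilings (βe _) (ωe _)]
  · unfold tilings
    congr 1
    ext T
    simp only [Set.mem_setOf_eq]
    have : region (2 * (d + 1)) = Reg (βe (2 * (d + 1))) (ωe (2 * (d + 1)))
        (⟨d + 1, by omega⟩, ⟨d, by omega⟩) (⟨d, by omega⟩, ⟨d + 2, by omega⟩) := by
      ext ⟨x, y⟩
      unfold region Reg
      rw [Set.mem_diff, mem_aztec]
      simp only [Set.mem_insert_iff, Set.mem_singleton_iff, Prod.mk.injEq, Set.mem_setOf_eq, βe, ωe, ne_eq]
      constructor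
      · rintro ⟨h, h'⟩
        rcases Int.even_or_odd' (x + y) with ⟨t, ht | ht⟩
        · left
          refine ⟨(⟨(t - y + (d + 1)).toNat, by omega⟩, ⟨(t + (d + 1)).toNat, by omega⟩), ?_, ?_⟩
          · simp only [Prod.mk.injEq, Fin.mk.injEq]
            omega
          · simp only
            constructor <;> push_cast <;> omega
        · right
          refine ⟨(⟨(t - y + (d + 1)).toNat, by omega⟩, ⟨(t + 1 + (d + 1)).toNat, by omega⟩), ?_, ?_⟩
          · simp only [Prod.mk.injEq, Fin.mk.injEq]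
            omega
          · simp only
            constructor <;> push_cast <;> omega
      · rintro (⟨⟨⟨k, hk⟩, ⟨l, hl⟩⟩, hne, hx, hy⟩ | ⟨⟨⟨i, hi⟩, ⟨j, hj⟩⟩, hne, hx, hy⟩)
        · simp only [Prod.mk.injEq, Fin.mk.injEq] at hne hx hy
          push_cast at *
          omega
        · simp only [Prod.mk.injEq, Fin.mk.injEq] at hne hx hy
          push_cast at *
          omega
    rw [this]
  · intro b b' h
    simp only [βe, Prod.mk.injEq] at h
    exact Prod.ext (Fin.ext (by omega)) (Fin.ext (by omega))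
  · intro b b' h
    simp only [ωe, Prod.mk.injEq] at h
    exact Prod.ext (Fin.ext (by omega)) (Fin.ext (by omega))
  · intro b w h
    simp only [βe, ωe, Prod.mk.injEq] at h
    omega
  · intro b w
    simp only [βe, ωe, adjC, Adj]
    omega
  · intro b w
    simp only [βe, ωe, adjC, Adj]
    omega
  · intro b b'
    simp only [βe, adjC]
    omega
  · intro w w'
    simp only [ωe, adjC]
    omega

lemma tilings_odd (d : ℕ) : ∃ (b0 : Bl (2 * (d + 1) + 1)) (w0 : Wh (2 * (d + 1) + 1)),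
    (b0.1 : ℕ) = d + 1 + 1 ∧ (b0.2 : ℕ) = d ∧ (w0.1 : ℕ) + 1 = b0.1 ∧ (w0.2 : ℕ) = b0.2 + 2 ∧
    tilings (2 * (d + 1) + 1) = Mc b0 w0 := by
  refine ⟨(⟨d + 1 + 1, by omega⟩, ⟨d, by omega⟩), (⟨d + 1, by omega⟩, ⟨d + 2, by omega⟩), rfl, rfl, rfl, rfl, ?_⟩
  rw [← card_tilings (βo _) (ωo _)]
  · unfold tilings
    congr 1
    ext T
    simp only [Set.mem_setOf_eq]
    have : region (2 * (d + 1) + 1) = Reg (βo (2 * (d + 1) + 1)) (ωo (2 * (d + 1) + 1))
        (⟨d + 1 + 1, by omega⟩, ⟨d, by omega⟩) (⟨d + 1, by omega⟩, ⟨d + 2, by omega⟩) := by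
      ext ⟨x, y⟩
      unfold region Reg
      rw [Set.mem_diff, mem_aztec]
      simp only [Set.mem_insert_iff, Set.mem_singleton_iff, Prod.mk.injEq, Set.mem_setOf_eq, βo, ωo, ne_eq]
      constructor
      · rintro ⟨h, h'⟩
        rcases Int.even_or_odd' (x + y) with ⟨t, ht | ht⟩
        · -- x + y even : white
          right
          refine ⟨(⟨((d + 1) - t + y).toNat, by omega⟩, ⟨((d + 1) - t).toNat, by omega⟩), ?_, ?_⟩
          · simp only [Prod.mk.injEq, Fin.mk.injEq]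
            omega
          · simp only
            constructor <;> push_cast <;> omega
        · left
          refine ⟨(⟨((d + 1) - t + y).toNat, by omega⟩, ⟨((d + 1) - t - 1).toNat, by omega⟩), ?_, ?_⟩
          · simp only [Prod.mk.injEq, Fin.mk.injEq]
            omega
          · simp only
            constructor <;> push_cast <;> omega
      · rintro (⟨⟨⟨k, hk⟩, ⟨l, hl⟩⟩, hne, hx, hy⟩ | ⟨⟨⟨i, hi⟩, ⟨j, hj⟩⟩, hne, hx, hy⟩)
        · simp only [Prod.mk.injEq, Fin.mk.injEq] at hne hx hy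
          push_cast at *
          omega
        · simp only [Prod.mk.injEq, Fin.mk.injEq] at hne hx hy
          push_cast at *
          omega
    rw [this]
  · intro b b' h
    simp only [βo, Prod.mk.injEq] at h
    exact Prod.ext (Fin.ext (by omega)) (Fin.ext (by omega))
  · intro b b' h
    simp only [ωo, Prod.mk.injEq] at h
    exact Prod.ext (Fin.ext (by omega)) (Fin.ext (by omega))
  · intro b w h
    simp only [βo, ωo, Prod.mk.injEq] at h
    omega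
  · intro b w
    simp only [βo, ωo, adjC, Adj]
    omega
  · intro b w
    simp only [βo, ωo, adjC, Adj]
    omega
  · intro b b'
    simp only [βo, adjC]
    omega
  · intro w w'
    simp only [ωo, adjC]
    omega

end

end Pool.Agent.W286.AZ
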