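import Pool.Agent.W286.AZ.Sums

set_option linter.all false

namespace Pool.Agent.W286.AZ

open Polynomial Finset

noncomputable section

lemma coeff_sub_mul (p : ℚ[X]) (i : ℕ) : ((1 - X) * p).coeff i = p.coeff i - sh p.coeff i := by
  rw [sub_mul, one_mul, coeff_sub]
  cases i with
  | zero => simp
  | succ j => simp [coeff_X_mul]

lemma coeff_add_mul (p : ℚ[X]) (i : ℕ) : ((1 + X) * p).coeff i = p.coeff i + sh p.coeff i := by
  rw [add_mul, one_mul, coeff_add]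
  cases i with
  | zero => simp
  | succ j => simp [coeff_X_mul]

lemma sq_sub (d : ℕ) : Hp (2 * (d + 1)) (d + 1 + 1) = (1 - X) * ((1 - X) * (1 - X ^ 2) ^ d) := by
  unfold Hp
  rw [show 2 * (d + 1) - (d + 1 + 1) = d by omega, show (1 - X ^ 2 : ℚ[X]) = (1 - X) * (1 + X) by ring, mul_pow]
  ring

lemma sq_add (d : ℕ) : Hp (2 * (d + 1)) d = (1 + X) * ((1 + X) * (1 - X ^ 2) ^ d) := by
  unfold Hp
  rw [show 2 * (d + 1) - d = d + 2 by omega, show (1 - X ^ 2 : ℚ[X]) = (1 - X) * (1 + X) by ring, mul_pow]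
  ring

lemma ch1 (d r : ℕ) (h : r ≤ d + 1) : ((d : ℚ) + 1) * d.choose r = (d + 1 - r) * (d + 1).choose r := by
  have := Nat.choose_mul_succ_eq d r
  have h2 : ((d.choose r * (d + 1) : ℕ) : ℚ) = (((d + 1).choose r * (d + 1 - r) : ℕ) : ℚ) := by rw [this]
  push_cast [Nat.cast_sub h] at h2
  linarith

lemma ch2 (d r : ℕ) : ((d : ℚ) + 1) * d.choose r = (r + 1) * (d + 1).choose (r + 1) := by
  have := Nat.add_one_mul_choose_eq d r
  have h2 : (((d + 1) * d.choose r : ℕ) : ℚ) = (((d + 1).choose (r + 1) * (r + 1) : ℕ) : ℚ) := by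
    rw [← this]
  push_cast at h2
  linarith

lemma u_even (d r : ℕ) (h : r ≤ d + 1) :
    ((d : ℚ) + 1) * H (2 * (d + 1)) (d + 1 + 1) (2 * r) = (-1) ^ r * (d + 1).choose r * (d + 1 - 2 * r) := by
  unfold H
  rw [sq_sub, coeff_sub_mul, coeff_sub_mul]
  cases r with
  | zero => simp [sq_even, Polynomial.coeff_zero_eq_eval_zero]
  | succ r =>
    rw [show 2 * (r + 1) = (2 * r + 1) + 1 by ring, sh_succ, sh_succ, coeff_sub_mul, sh_succ,
      show 2 * r + 1 + 1 = 2 * (r + 1) by ring, sq_even, sq_odd, sq_even]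
    have h1 := ch1 d (r + 1) h
    have h2 := ch2 d r
    push_cast at h1 ⊢
    rw [pow_succ]
    linear_combination (-(-1) ^ r) * h1 + ((-1) ^ r) * h2

lemma u_odd (d r : ℕ) :
    ((d : ℚ) + 1) * H (2 * (d + 1)) (d + 1 + 1) (2 * r + 1) = 2 * ((-1) ^ (r + 1) * (d + 1).choose (r + 1)) * (r + 1) := by
  unfold H
  rw [sq_sub, coeff_sub_mul, coeff_sub_mul, sh_succ, sh_succ, coeff_sub_mul, sq_even, sq_odd]
  have h2 := ch2 d r
  have h3 : sh ((1 - X ^ 2 : ℚ[X]) ^ d).coeff (2 * r) = 0 := by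
    cases r with
    | zero => simp
    | succ r => rw [show 2 * (r + 1) = (2 * r + 1) + 1 by ring, sh_succ, sq_odd]
  rw [h3, pow_succ]
  linear_combination (-2 * (-1) ^ r) * h2

lemma v_even (d r : ℕ) (h : r ≤ d + 1) :
    ((d : ℚ) + 1) * H (2 * (d + 1)) d (2 * r) = (-1) ^ r * (d + 1).choose r * (d + 1 - 2 * r) := by
  unfold H
  rw [sq_add, coeff_add_mul, coeff_add_mul]
  cases r with
  | zero => simp [sq_even, Polynomial.coeff_zero_eq_eval_zero]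
  | succ r =>
    rw [show 2 * (r + 1) = (2 * r + 1) + 1 by ring, sh_succ, sh_succ, coeff_add_mul, sh_succ,
      show 2 * r + 1 + 1 = 2 * (r + 1) by ring, sq_even, sq_odd, sq_even]
    have h1 := ch1 d (r + 1) h
    have h2 := ch2 d r
    push_cast at h1 ⊢
    rw [pow_succ]
    linear_combination (-(-1) ^ r) * h1 + ((-1) ^ r) * h2

lemma v_odd (d r : ℕ) (h : r ≤ d + 1) :
    ((d : ℚ) + 1) * H (2 * (d + 1)) d (2 * r + 1) = 2 * ((-1) ^ r * (d + 1).choose r) * (d + 1 - r) := by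
  unfold H
  rw [sq_add, coeff_add_mul, coeff_add_mul, sh_succ, sh_succ, coeff_add_mul, sq_even, sq_odd]
  have h2 := ch1 d r h
  have h3 : sh ((1 - X ^ 2 : ℚ[X]) ^ d).coeff (2 * r) = 0 := by
    cases r with
    | zero => simp
    | succ r => rw [show 2 * (r + 1) = (2 * r + 1) + 1 by ring, sh_succ, sq_odd]
  rw [h3]
  linear_combination (2 * (-1) ^ r) * h2

lemma hA (c i : ℕ) (hc : 1 ≤ c) (h : i ≤ 2 * c - 1) :
    H (2 * c - 1) i c = (H (2 * c) i c + H (2 * c) (i + 1) c) / 2 := by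
  have h1 := H_up h c
  have h2 := H_dn h c
  rw [show 2 * c - 1 + 1 = 2 * c by omega] at h1 h2
  rw [h1, h2]; ring

lemma hB (c i : ℕ) (hc : 1 ≤ c) (h : i ≤ 2 * c - 1) :
    H (2 * c - 1) i (c - 1) = (H (2 * c) i c - H (2 * c) (i + 1) c) / 2 := by
  have h1 := H_up h c
  have h2 := H_dn h c
  rw [show 2 * c - 1 + 1 = 2 * c by omega] at h1 h2
  have : sh (H (2 * c - 1) i) c = H (2 * c - 1) i (c - 1) := by
    unfold sh; rw [if_neg (by omega)]
  rw [h1, h2, this]; ring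

def S (n k j l : ℕ) : ℚ := ∑ i ∈ range k, H n j i * H (n - 1) i l

lemma sum_split (c : ℕ) (F : ℕ → ℚ) :
    ∑ i ∈ range c, F i = ∑ r ∈ range ((c + 1) / 2), F (2 * r) + ∑ r ∈ range (c / 2), F (2 * r + 1) := by
  rcases Nat.even_or_odd' c with ⟨m, rfl | rfl⟩
  · rw [show (2 * m + 1) / 2 = m by omega, show 2 * m / 2 = m by omega, sum_pairs]
  · rw [show (2 * m + 1 + 1) / 2 = m + 1 by omega, show (2 * m + 1) / 2 = m by omega, sum_range_succ,
      sum_pairs, sum_range_succ]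
    ring

/-- even case -/
lemma SA1 (c : ℕ) (hc : 1 ≤ c) :
    S (2 * c) c c (c - 1) = (∑ r ∈ range ((c + 1) / 2), aa c r) / 2 := by
  unfold S
  rw [sum_split]
  have h1 : ∑ r ∈ range ((c + 1) / 2), H (2 * c) c (2 * r) * H (2 * c - 1) (2 * r) (c - 1)
      = ∑ r ∈ range ((c + 1) / 2), aa c r / 2 := by
    refine sum_congr rfl fun r hr => ?_
    rw [Finset.mem_range] at hr
    rw [hB c (2 * r) hc (by omega), g_odd (by omega), H_c_even, ← g_even (show r ≤ c by omega)]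
    ring
  have h2 : ∑ r ∈ range (c / 2), H (2 * c) c (2 * r + 1) * H (2 * c - 1) (2 * r + 1) (c - 1) = 0 := by
    apply sum_eq_zero
    intro r _
    rw [H_c_odd, zero_mul]
  rw [h1, h2, sum_div, add_zero]

lemma SA2 (c : ℕ) (hc : 1 ≤ c) :
    S (2 * c) c c c = (∑ r ∈ range ((c + 1) / 2), aa c r) / 2 := by
  unfold S
  rw [sum_split]
  have h1 : ∑ r ∈ range ((c + 1) / 2), H (2 * c) c (2 * r) * H (2 * c - 1) (2 * r) c
      = ∑ r ∈ range ((c + 1) / 2), aa c r / 2 := by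
    refine sum_congr rfl fun r hr => ?_
    rw [Finset.mem_range] at hr
    rw [hA c (2 * r) hc (by omega), g_odd (by omega), H_c_even, ← g_even (show r ≤ c by omega)]
    ring
  have h2 : ∑ r ∈ range (c / 2), H (2 * c) c (2 * r + 1) * H (2 * c - 1) (2 * r + 1) c = 0 := by
    apply sum_eq_zero
    intro r _
    rw [H_c_odd, zero_mul]
  rw [h1, h2, sum_div, add_zero]

lemma SE_aux (d r : ℕ) (h : r ≤ d + 1) :
    H (2 * (d + 1)) (d + 1 + 1) (2 * r) * (H (2 * (d + 1)) (2 * r) (d + 1) / 2)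
      = (((d + 1 : ℕ) : ℚ) - 2 * r) * aa (d + 1) r / (2 * (d + 1)) := by
  have h1 := u_even d r h
  have h2 := g_even (c := d + 1) h
  have h3 : ((d : ℚ) + 1) ≠ 0 := by positivity
  rw [← h2]
  field_simp
  push_cast
  linear_combination (H (2 * (d + 1)) (2 * r) (d + 1)) * h1

lemma SO_aux (d r : ℕ) (h : r + 1 ≤ d + 1) :
    H (2 * (d + 1)) (d + 1 + 1) (2 * r + 1) * (H (2 * (d + 1)) (2 * (r + 1)) (d + 1) / 2)
      = ((r : ℚ) + 1) * aa (d + 1) (r + 1) / (d + 1) := by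
  have h1 := u_odd d r
  have h2 := g_even (c := d + 1) h
  have h3 : ((d : ℚ) + 1) ≠ 0 := by positivity
  rw [← h2]
  field_simp
  linear_combination (H (2 * (d + 1)) (2 * (r + 1)) (d + 1)) * h1

lemma SE1 (d : ℕ) :
    S (2 * (d + 1)) (d + 1) (d + 1 + 1) (d + 1 - 1)
      = (∑ r ∈ range ((d + 1 + 1) / 2), (((d + 1 : ℕ) : ℚ) - 2 * r) * aa (d + 1) r) / (2 * (d + 1))
        - (∑ r ∈ range ((d + 1) / 2), ((r : ℚ) + 1) * aa (d + 1) (r + 1)) / (d + 1) := by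
  unfold S
  rw [sum_split]
  have h1 : ∑ r ∈ range ((d + 1 + 1) / 2), H (2 * (d + 1)) (d + 1 + 1) (2 * r) * H (2 * (d + 1) - 1) (2 * r) (d + 1 - 1)
      = ∑ r ∈ range ((d + 1 + 1) / 2), (((d + 1 : ℕ) : ℚ) - 2 * r) * aa (d + 1) r / (2 * (d + 1)) := by
    refine sum_congr rfl fun r hr => ?_
    rw [Finset.mem_range] at hr
    rw [hB (d + 1) (2 * r) (by omega) (by omega), g_odd (by omega), sub_zero, SE_aux d r (by omega)]
  have h2 : ∑ r ∈ range ((d + 1) / 2), H (2 * (d + 1)) (d + 1 + 1) (2 * r + 1) * H (2 * (d + 1) - 1) (2 * r + 1) (d + 1 - 1)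
      = - ∑ r ∈ range ((d + 1) / 2), ((r : ℚ) + 1) * aa (d + 1) (r + 1) / (d + 1) := by
    rw [← sum_neg_distrib]
    refine sum_congr rfl fun r hr => ?_
    rw [Finset.mem_range] at hr
    rw [hB (d + 1) (2 * r + 1) (by omega) (by omega), g_odd (by omega),
      show 2 * r + 1 + 1 = 2 * (r + 1) by ring, ← SO_aux d r (by omega)]
    ring
  rw [h1, h2, sum_div, sum_div]
  ring

lemma SE2 (d : ℕ) :
    S (2 * (d + 1)) (d + 1) (d + 1 + 1) (d + 1)
      = (∑ r ∈ range ((d + 1 + 1) / 2), (((d + 1 : ℕ) : ℚ) - 2 * r) * aa (d + 1) r) / (2 * (d + 1))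
        + (∑ r ∈ range ((d + 1) / 2), ((r : ℚ) + 1) * aa (d + 1) (r + 1)) / (d + 1) := by
  unfold S
  rw [sum_split]
  have h1 : ∑ r ∈ range ((d + 1 + 1) / 2), H (2 * (d + 1)) (d + 1 + 1) (2 * r) * H (2 * (d + 1) - 1) (2 * r) (d + 1)
      = ∑ r ∈ range ((d + 1 + 1) / 2), (((d + 1 : ℕ) : ℚ) - 2 * r) * aa (d + 1) r / (2 * (d + 1)) := by
    refine sum_congr rfl fun r hr => ?_
    rw [Finset.mem_range] at hr
    rw [hA (d + 1) (2 * r) (by omega) (by omega), g_odd (by omega), add_zero, SE_aux d r (by omega)]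
  have h2 : ∑ r ∈ range ((d + 1) / 2), H (2 * (d + 1)) (d + 1 + 1) (2 * r + 1) * H (2 * (d + 1) - 1) (2 * r + 1) (d + 1)
      = ∑ r ∈ range ((d + 1) / 2), ((r : ℚ) + 1) * aa (d + 1) (r + 1) / (d + 1) := by
    refine sum_congr rfl fun r hr => ?_
    rw [Finset.mem_range] at hr
    rw [hA (d + 1) (2 * r + 1) (by omega) (by omega), g_odd (by omega),
      show 2 * r + 1 + 1 = 2 * (r + 1) by ring, ← SO_aux d r (by omega)]
    ring
  rw [h1, h2, sum_div, sum_div]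

/-- the quantity of the two-row lemma -/
def Q (n k l : ℕ) : ℚ :=
  2 ^ n * S n k (l + 2) l - 2 * (S n k (l + 2) l * S n k (l + 1) (l + 1) - S n k (l + 2) (l + 1) * S n k (l + 1) l)

def PP (m : ℕ) : ℚ := ((2 * m).choose m : ℚ) ^ 2 / 16 ^ m

lemma PP_eq (m : ℕ) : cb m * cb m = PP m * 16 ^ m := by
  unfold PP cb
  rw [Nat.centralBinom_eq_two_mul_choose]
  field_simp

lemma Q_even_even (m : ℕ) : Q (2 * (2 * m + 1 + 1)) (2 * m + 1 + 1) (2 * m + 1)
    = (2 ^ (2 * (2 * m + 1 + 1))) ^ 2 * (((m : ℚ) + 1) / 2 * PP (m + 1) * (1 + PP (m + 1))) := by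
  unfold Q
  have a1 := SA1 (2 * m + 1 + 1) (by omega)
  have a2 := SA2 (2 * m + 1 + 1) (by omega)
  have b1 := SE1 (2 * m + 1)
  have b2 := SE2 (2 * m + 1)
  rw [show (2 * m + 1 + 1 + 1) / 2 = m + 1 by omega] at a1 a2 b1 b2
  rw [show (2 * m + 1 + 1) / 2 = m + 1 by omega] at b1 b2
  rw [show 2 * m + 1 + 1 - 1 = 2 * m + 1 by omega] at a1 b1
  rw [show 2 * m + 1 + 2 = 2 * m + 1 + 1 + 1 by ring, a1, a2, b1, b2]
  have hc : 2 * m + 1 + 1 = 2 * (m + 1) := by ring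
  have t := sum_tel (2 * m + 1 + 1) (m + 1) (by omega)
  have s0 := sum_half_even (m + 1)
  rw [← hc] at s0
  have haa : aa (2 * m + 1 + 1) (m + 1) = cb (m + 1) * cb (m + 1) := by
    unfold aa
    rw [show 2 * m + 1 + 1 - (m + 1) = m + 1 by omega]
  have s1 : ∑ r ∈ range (m + 1), ((r : ℚ) + 1) * aa (2 * m + 1 + 1) (r + 1)
      = (2 * m + 2) / 2 * (∑ r ∈ range (m + 1), aa (2 * m + 1 + 1) r)
        - (∑ r ∈ range (m + 1), (((2 * m + 1 + 1 : ℕ) : ℚ) - 2 * r) * aa (2 * m + 1 + 1) r) / 2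
        + (m + 1) * aa (2 * m + 1 + 1) (m + 1) := by
    have h1 : ∑ r ∈ range (m + 1), ((r : ℚ) + 1) * aa (2 * m + 1 + 1) (r + 1)
        = ∑ r ∈ range (m + 1 + 1), (r : ℚ) * aa (2 * m + 1 + 1) r := by
      rw [sum_range_succ' (fun r : ℕ => (r : ℚ) * aa (2 * m + 1 + 1) r) (m + 1)]
      push_cast
      ring
    rw [h1, sum_range_succ, mul_sum, sum_div, ← sum_sub_distrib]
    push_cast
    congr 1
    refine sum_congr rfl fun r _ => ?_
    ring
  rw [s1, t, s0, haa, PP_eq]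
  have h4 : (4 : ℚ) ^ (2 * m + 1 + 1) = 16 ^ (m + 1) := by
    rw [show 2 * m + 1 + 1 = 2 * (m + 1) by ring, pow_mul]; norm_num
  have h2 : (2 : ℚ) ^ (2 * (2 * m + 1 + 1)) = 16 ^ (m + 1) := by
    rw [show 2 * (2 * m + 1 + 1) = 4 * (m + 1) by ring, pow_mul]; norm_num
  rw [h4, h2]
  generalize (16 : ℚ) ^ (m + 1) = N
  generalize PP (m + 1) = P
  have hm : ((m : ℚ) + 1) ≠ 0 := by positivity
  have hm2 : (2 * (m : ℚ) + 1 + 1) ≠ 0 := by positivity
  push_cast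
  field_simp
  ring

lemma Q_even_odd (m : ℕ) : Q (2 * (2 * m + 1)) (2 * m + 1) (2 * m)
    = (2 ^ (2 * (2 * m + 1))) ^ 2 * ((2 * (m : ℚ) + 1) / 4 * PP m) := by
  unfold Q
  have a1 := SA1 (2 * m + 1) (by omega)
  have a2 := SA2 (2 * m + 1) (by omega)
  have b1 := SE1 (2 * m)
  have b2 := SE2 (2 * m)
  rw [show (2 * m + 1 + 1) / 2 = m + 1 by omega] at a1 a2 b1 b2
  rw [show (2 * m + 1) / 2 = m by omega] at b1 b2
  rw [show 2 * m + 1 - 1 = 2 * m by omega] at a1 b1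
  rw [show 2 * m + 2 = 2 * m + 1 + 1 by ring, a1, a2, b1, b2]
  have t := sum_tel (2 * m + 1) (m + 1) (by omega)
  have s0 := sum_half_odd m
  have haa : aa (2 * m + 1) (m + 1) = cb (m + 1) * cb m := by
    unfold aa
    rw [show 2 * m + 1 - (m + 1) = m by omega]
  rw [t, s0, haa]
  have h4 : (4 : ℚ) ^ (2 * m + 1) = 4 * 16 ^ m := by
    rw [pow_succ, pow_mul]; norm_num; ring
  have h2 : (2 : ℚ) ^ (2 * (2 * m + 1)) = 4 * 16 ^ m := by
    rw [show 2 * (2 * m + 1) = 4 * m + 2 by ring, pow_add, pow_mul]; norm_num; ring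
  rw [h4, h2]
  have hcb := cb_succ m
  have hP := PP_eq m
  have hm : ((m : ℚ) + 1) ≠ 0 := by positivity
  have hm2 : (2 * (m : ℚ) + 1) ≠ 0 := by positivity
  have e1 : (((m + 1 : ℕ) : ℚ)) * (2 * ((2 * m + 1 : ℕ) : ℚ) - 2 * ((m + 1 : ℕ) : ℚ) + 1) * (cb (m + 1) * cb m)
      = (2 * m + 1) * (2 * (2 * m + 1)) * (PP m * 16 ^ m) := by
    rw [← hP]
    push_cast
    linear_combination ((2 * (m : ℚ) + 1) * cb m) * hcb
  rw [e1]
  generalize (16 : ℚ) ^ m = N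
  generalize PP m = P
  generalize (∑ r ∈ range m, ((r : ℚ) + 1) * aa (2 * m + 1) (r + 1)) = O
  push_cast
  field_simp
  ring

end

end Pool.Agent.W286.AZ
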